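import Pool.Agent.E8helper70.AP.Maj
import Pool.Agent.Y677.RSZ.Eng4

/-!
# Progressions of prime pairs: assembly of the engine (after `Pool/Agent/Y677/RSZ/Eng*.lean`)
-/

set_option autoImplicit false

open Finset

namespace Pool.Agent.E8helper70.AP

open Pool.Agent.H602R3.DHJ
open Pool.Agent.TH423.SH (PS)
open Pool.Agent.Y677.RSZ (rt rhoT V S_MK S_PIG pig per_mul per_mod rt_le fac_nonneg fac_le V_le_one wK gK gK_nonneg gK_le
  cntK goodK ev_log exN)
open Pool.Agent.Y727.PSP (LFk rp rp_pos rp_le sum_rp exAP lift LF_mono rp_cast S_RS)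

theorem facS_pos {F : ℤ → ℤ} {g : ℕ} (hF : Sy g F) {p : ℕ} (hp : p.Prime) : 0 < 1 - (rt F p : ℝ) / p := by
  have h0 : (0 : ℝ) < p := by exact_mod_cast hp.pos
  rw [sub_pos, div_lt_one h0]
  exact_mod_cast (hF.root p hp).2

/-- a lower bound for the sieve product -/
theorem V_lower : ∃ K : ℝ, 1 ≤ K ∧ ∀ (g : ℕ) (F : ℤ → ℤ) (W H : ℕ), Sy g F → 2 ≤ H →
    (∀ p : ℕ, p.Prime → p ≤ 2 * g + 2 → p ∣ W) → 1 / (K * Real.log H) ^ (2 * g) ≤ V F W H := by
  obtain ⟨K, hK, hV⟩ := Pool.Agent.Y674.PSP.VV_le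
  refine ⟨max K 1 * (1 / Real.log 2), ?_, fun g F W H hF hH hW => ?_⟩
  · have h2 : 0 < Real.log 2 := Real.log_pos (by norm_num)
    have h3 : Real.log 2 ≤ 1 := by linarith [Real.log_two_lt_d9]
    have h4 : 1 ≤ 1 / Real.log 2 := by rw [le_div_iff₀ h2]; linarith
    have h5 : 1 ≤ max K 1 := le_max_right _ _
    nlinarith
  have hlog2 : 0 < Real.log 2 := Real.log_pos (by norm_num)
  have hlogH : Real.log 2 ≤ Real.log H := Real.log_le_log (by norm_num) (by exact_mod_cast hH)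
  have h1 := hV H hH
  have hVV0 : 0 < Pool.Agent.Y674.PSP.VV H := by
    unfold Pool.Agent.Y674.PSP.VV
    apply prod_pos
    intro p hp
    rw [mem_filter] at hp
    have h2 : (1 : ℝ) < p := by exact_mod_cast hp.2.one_lt
    have h3 : (p : ℝ)⁻¹ < 1 := inv_lt_one_of_one_lt₀ h2
    have : 0 < 1 - (p : ℝ)⁻¹ := by linarith
    positivity
  have hmax : Pool.Agent.Y674.PSP.VV H ≤ max K 1 * (1 / Real.log 2) * Real.log H := by
    refine h1.trans ?_
    have h4 : 1 ≤ 1 / Real.log 2 := by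
      rw [le_div_iff₀ hlog2]; linarith [Real.log_two_lt_d9]
    have h5 : K ≤ max K 1 := le_max_left _ _
    have h6 : (0 : ℝ) < max K 1 := lt_of_lt_of_le one_pos (le_max_right _ _)
    have h7 : K ≤ max K 1 * (1 / Real.log 2) := by nlinarith
    exact mul_le_mul_of_nonneg_right h7 (by linarith)
  calc 1 / (max K 1 * (1 / Real.log 2) * Real.log H) ^ (2 * g) ≤
      1 / (Pool.Agent.Y674.PSP.VV H) ^ (2 * g) := by
        apply one_div_le_one_div_of_le (by positivity)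
        exact pow_le_pow_left₀ hVV0.le hmax _
    _ = ∏ p ∈ (Icc 1 H).filter Nat.Prime, (1 - (p : ℝ)⁻¹) ^ (2 * g) := by
        unfold Pool.Agent.Y674.PSP.VV
        rw [prod_pow, one_div, ← inv_pow, ← prod_inv_distrib]
        simp only [inv_inv]
    _ ≤ ∏ p ∈ PS W H, (1 - (p : ℝ)⁻¹) ^ (2 * g) := by
        have hsub : PS W H ⊆ (Icc 1 H).filter Nat.Prime := by
          intro p hp
          unfold PS at hp
          rw [mem_filter] at hp ⊢
          exact ⟨hp.1, hp.2.1⟩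
        have hall : ∀ p ∈ (Icc 1 H).filter Nat.Prime, 0 ≤ (1 - (p : ℝ)⁻¹) ^ (2 * g) ∧
            (1 - (p : ℝ)⁻¹) ^ (2 * g) ≤ 1 := by
          intro p hp
          rw [mem_filter] at hp
          have h2 : (1 : ℝ) < p := by exact_mod_cast hp.2.one_lt
          have h3 : (p : ℝ)⁻¹ < 1 := inv_lt_one_of_one_lt₀ h2
          have h4 : 0 < (p : ℝ)⁻¹ := by positivity
          exact ⟨pow_nonneg (by linarith) _, pow_le_one₀ (by linarith) (by linarith)⟩
        rw [← prod_sdiff hsub]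
        apply mul_le_of_le_one_left
        · exact prod_nonneg fun p hp => (hall p (hsub hp)).1
        · exact prod_le_one (fun p hp => (hall p (mem_sdiff.1 hp).1).1)
            (fun p hp => (hall p (mem_sdiff.1 hp).1).2)
    _ ≤ V F W H := by
        unfold V
        apply prod_le_prod
        · intro p hp
          unfold PS at hp
          rw [mem_filter] at hp
          have h2 : (1 : ℝ) < p := by exact_mod_cast hp.2.1.one_lt
          have h3 : (p : ℝ)⁻¹ < 1 := inv_lt_one_of_one_lt₀ h2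
          have : 0 ≤ 1 - (p : ℝ)⁻¹ := by linarith
          positivity
        · intro p hp
          unfold PS at hp
          rw [mem_filter] at hp
          have hpg : 2 * g + 2 < p := by
            by_contra hcon
            exact hp.2.2 (hW p hp.2.1 (by omega))
          have hp0 : (0 : ℝ) < p := by exact_mod_cast hp.2.1.pos
          have hpg' : (2 : ℝ) * g + 2 ≤ p := by exact_mod_cast hpg.le
          have hr : (rt F p : ℝ) ≤ g := by exact_mod_cast (hF.root p hp.2.1).1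
          have hx : (p : ℝ)⁻¹ * (2 * g + 2) ≤ 1 := by
            rw [inv_mul_le_iff₀ hp0]; linarith
          have hx0 : 0 < (p : ℝ)⁻¹ := by positivity
          have h5 : (1 - (p : ℝ)⁻¹) ^ (2 * g) ≤ 1 - g * (p : ℝ)⁻¹ := by
            have hg0 := (Nat.cast_nonneg g : (0 : ℝ) ≤ g)
            have hx1 : (p : ℝ)⁻¹ ≤ 1 := by nlinarith
            have h6 : 1 + ((2 * g : ℕ) : ℝ) * (p : ℝ)⁻¹ ≤ (1 + (p : ℝ)⁻¹) ^ (2 * g) :=
              one_add_mul_le_pow (by linarith) _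
            push_cast at h6
            have h8 : (1 - (p : ℝ)⁻¹) ^ (2 * g) * (1 + (p : ℝ)⁻¹) ^ (2 * g) ≤ 1 := by
              rw [← mul_pow]
              apply pow_le_one₀
              · nlinarith
              · nlinarith
            have h9 : 0 ≤ (1 - (p : ℝ)⁻¹) ^ (2 * g) := pow_nonneg (by linarith) _
            have h10 : (1 - (p : ℝ)⁻¹) ^ (2 * g) * (1 + 2 * g * (p : ℝ)⁻¹) ≤ 1 :=
              (mul_le_mul_of_nonneg_left h6 h9).trans h8
            have h11 : 1 ≤ (1 - g * (p : ℝ)⁻¹) * (1 + 2 * g * (p : ℝ)⁻¹) := by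
              have h12 : 0 ≤ (g : ℝ) * (p : ℝ)⁻¹ := by positivity
              nlinarith
            have h13 : 0 < 1 + 2 * g * (p : ℝ)⁻¹ := by positivity
            exact le_of_mul_le_mul_right (h10.trans h11) h13
          have h7 : (rt F p : ℝ) / p ≤ g * (p : ℝ)⁻¹ := by
            rw [div_eq_mul_inv]
            exact mul_le_mul_of_nonneg_right hr hx0.le
          linarith

/-- some class modulo `W` contains as many elements of `A` as expected -/
theorem exb {g : ℕ} {F : ℤ → ℤ} (hF : Sy g F) (W H : ℕ) (hW : Squarefree W)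
    (hWH : ∀ p : ℕ, p.Prime → p ∣ W → p ≤ H) (A : Finset ℕ) (κ : ℝ) (hκ : 0 < κ) (hH : 1 ≤ H)
    (hA : ∀ n ∈ A, ∀ p ∈ W.primeFactors, ¬ (p : ℤ) ∣ F (n : ℤ))
    (hAc : κ * (H * V F 1 H) ≤ A.card) :
    ∃ b < W, κ * (H / W * V F W H) ≤ ((A.filter (fun n => n % W = b)).card : ℝ) := by
  classical
  have hW0 : 0 < W := Nat.pos_of_ne_zero hW.ne_zero
  have hW0' : (0 : ℝ) < W := by exact_mod_cast hW0
  have hH0 : (0 : ℝ) < H := by exact_mod_cast hH
  set Bs := (range W).filter (fun b : ℕ => ∀ p ∈ W.primeFactors, ¬ (p : ℤ) ∣ F b) with hBs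
  have hBc : (Bs.card : ℝ) = W * ∏ p ∈ W.primeFactors, (1 - (rt F p : ℝ) / p) := by
    have h1 : Bs.card = ∏ p ∈ W.primeFactors, (p - rt F p) := by
      rw [hBs, ← pig F hF.per W hW]
    rw [h1, Nat.cast_prod]
    have h2 : (W : ℝ) = ∏ p ∈ W.primeFactors, (p : ℝ) := by
      conv_lhs => rw [← Nat.prod_primeFactors_of_squarefree hW]
      push_cast
      rfl
    conv_rhs => rw [h2]
    rw [← prod_mul_distrib]
    apply prod_congr rfl
    intro p hp
    have hp0 : (p : ℝ) ≠ 0 := by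
      have := (Nat.prime_of_mem_primeFactors hp).pos
      positivity
    rw [Nat.cast_sub (rt_le p)]
    field_simp
  have hmaps : ∀ n ∈ A, n % W ∈ Bs := by
    intro n hn
    rw [hBs, mem_filter, mem_range]
    refine ⟨Nat.mod_lt _ hW0, fun p hp h => ?_⟩
    apply hA n hn p hp
    have hpp := Nat.prime_of_mem_primeFactors hp
    refine (per_mod hF.per hpp n (n % W) ?_).2 h
    exact (Nat.mod_modEq n W).symm.of_dvd (Nat.dvd_of_mem_primeFactors hp)
  have hVp := V_pos hF 1 H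
  have hAne : A.Nonempty := by
    rw [← card_pos]
    have : (0 : ℝ) < A.card := lt_of_lt_of_le (by positivity) hAc
    exact_mod_cast this
  have hBne : Bs.Nonempty := by
    obtain ⟨n, hn⟩ := hAne
    exact ⟨_, hmaps n hn⟩
  have hBpos : (0 : ℝ) < Bs.card := by
    have := card_pos.2 hBne
    exact_mod_cast this
  have hprod : 0 < ∏ p ∈ W.primeFactors, (1 - (rt F p : ℝ) / p) := by
    rw [hBc] at hBpos
    exact (mul_pos_iff_of_pos_left hW0').1 hBpos
  by_contra hcon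
  push Not at hcon
  have h3 : (A.card : ℝ) = ∑ b ∈ Bs, ((A.filter (fun n => n % W = b)).card : ℝ) := by
    rw [card_eq_sum_card_fiberwise hmaps]
    push_cast
    rfl
  have h4 : (A.card : ℝ) < ∑ _b ∈ Bs, κ * (H / W * V F W H) := by
    rw [h3]
    apply sum_lt_sum_of_nonempty hBne
    intro b hb
    rw [hBs, mem_filter, mem_range] at hb
    exact hcon b hb.1
  rw [sum_const, nsmul_eq_mul, hBc] at h4
  have h5 := Pool.Agent.Y677.RSZ.V_split (F := F) W H hW0.ne' hWH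
  have h6 : (W : ℝ) * (∏ p ∈ W.primeFactors, (1 - (rt F p : ℝ) / p)) * (κ * (H / W * V F W H)) =
      κ * (H * V F 1 H) := by
    rw [h5]
    field_simp
  rw [h6] at h4
  linarith

/-- the numerical conditions -/
theorem nums (k g BN s1 T B' : ℕ) (δ κ η' cR K : ℝ) (hδ : 0 < δ) (hκ : 0 < κ) (hη' : 0 < η')
    (hcR : 0 < cR) (hT : 1 ≤ T) (hB' : B' = 2 * T * BN + 3) : ∃ H₀ : ℕ, ∀ H : ℕ, H₀ ≤ H →
    2 ≤ H ∧ (k : ℝ) + 8 ≤ Real.log H ∧ 1 / Real.log H ≤ η' ∧ 1 / Real.log H < cR ∧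
    (4 : ℝ) ^ (s1 + T) * (4 * Real.log H ^ BN) ^ (2 * T) ≤ Real.log H ^ B' ∧
    4 * Real.log H ^ BN ≤ Real.log H ^ B' ∧
    10 * Real.log H ^ (2 * B') * (K * Real.log H) ^ (2 * g) ≤ κ * H ∧
    ((s1 : ℝ) + T + T * B') * Real.log H ≤ (H : ℝ) ^ δ ∧ ((s1 : ℝ) + T + T * B') * Real.log H ≤ H ∧
    ((H : ℝ) ^ (1 / 2 : ℝ) + Real.log H ^ B' + 3) * Real.log H ^ B' ≤ H := by
  apply Filter.eventually_atTop.1
  have hlog : Filter.Tendsto (fun H : ℕ => Real.log H) Filter.atTop Filter.atTop :=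
    Real.tendsto_log_atTop.comp tendsto_natCast_atTop_atTop
  filter_upwards [Filter.eventually_ge_atTop 2, hlog.eventually_ge_atTop ((k : ℝ) + 8),
    hlog.eventually_ge_atTop (1 / η'), hlog.eventually_gt_atTop (1 / cR),
    hlog.eventually_ge_atTop ((4 : ℝ) ^ (s1 + T) * 4 ^ (2 * T)),
    ev_log (2 * B' + 2 * g) (10 * |K| ^ (2 * g) / κ) 1 one_pos,
    ev_log 1 ((s1 : ℝ) + T + T * B') δ hδ, ev_log 1 ((s1 : ℝ) + T + T * B') 1 one_pos,
    ev_log B' 1 (1 / 4) (by norm_num), ev_log B' 3 (1 / 4) (by norm_num),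
    (tendsto_natCast_atTop_atTop (R := ℝ)).eventually
      ((tendsto_rpow_atTop (by norm_num : (0 : ℝ) < 1 / 4)).eventually_ge_atTop 5)]
    with H h1 h2 h3 h4 h5 h6 h7 h8 h9 h10 h11
  have hk0 := (Nat.cast_nonneg k : (0 : ℝ) ≤ k)
  have hl8 : 8 ≤ Real.log H := by linarith
  have hl0 : 0 < Real.log H := by linarith
  have hl1 : 1 ≤ Real.log H := by linarith
  have hH0 : (0 : ℝ) < H := by exact_mod_cast (show 0 < H by omega)
  refine ⟨h1, h2, ?_, ?_, ?_, ?_, ?_, ?_, ?_, ?_⟩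
  · rw [div_le_iff₀ hη'] at h3
    rw [div_le_iff₀ hl0]
    linarith
  · rw [div_lt_iff₀ hcR] at h4
    rw [div_lt_iff₀ hl0]
    linarith
  · have e1 : (4 : ℝ) ^ (s1 + T) * (4 * Real.log H ^ BN) ^ (2 * T) =
        ((4 : ℝ) ^ (s1 + T) * 4 ^ (2 * T)) * Real.log H ^ (2 * T * BN) := by
      rw [mul_pow, ← pow_mul, show BN * (2 * T) = 2 * T * BN by ring]
      ring
    rw [e1, hB']
    calc ((4 : ℝ) ^ (s1 + T) * 4 ^ (2 * T)) * Real.log H ^ (2 * T * BN) ≤
          Real.log H * Real.log H ^ (2 * T * BN) := by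
          gcongr
      _ = Real.log H ^ (2 * T * BN + 1) := by ring
      _ ≤ _ := pow_le_pow_right₀ hl1 (by omega)
  · rw [hB']
    calc 4 * Real.log H ^ BN ≤ Real.log H * Real.log H ^ BN := by gcongr; linarith
      _ = Real.log H ^ (BN + 1) := by ring
      _ ≤ _ := pow_le_pow_right₀ hl1 (by nlinarith)
  · rw [Real.rpow_one] at h6
    have e1 : (K * Real.log H) ^ (2 * g) ≤ |K| ^ (2 * g) * Real.log H ^ (2 * g) := by
      rw [← mul_pow]
      calc (K * Real.log H) ^ (2 * g) = |K * Real.log H| ^ (2 * g) := by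
            rw [(even_two_mul g).pow_abs]
        _ = (|K| * Real.log H) ^ (2 * g) := by rw [abs_mul, abs_of_pos hl0]
        _ ≤ _ := le_rfl
    calc 10 * Real.log H ^ (2 * B') * (K * Real.log H) ^ (2 * g) ≤
        10 * Real.log H ^ (2 * B') * (|K| ^ (2 * g) * Real.log H ^ (2 * g)) := by gcongr
      _ = κ * (10 * |K| ^ (2 * g) / κ * Real.log H ^ (2 * B' + 2 * g)) := by
          rw [pow_add]
          field_simp
      _ ≤ κ * H := by gcongr
  · rw [pow_one] at h7; exact h7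
  · rw [pow_one, Real.rpow_one] at h8; exact h8
  · have hq0 : 0 < (H : ℝ) ^ (1 / 4 : ℝ) := by positivity
    have e1 : (H : ℝ) ^ (1 / 2 : ℝ) = (H : ℝ) ^ (1 / 4 : ℝ) * (H : ℝ) ^ (1 / 4 : ℝ) := by
      rw [← Real.rpow_add hH0]; norm_num
    have e2 : (H : ℝ) = ((H : ℝ) ^ (1 / 4 : ℝ)) ^ 4 := by
      rw [← Real.rpow_natCast, ← Real.rpow_mul hH0.le]; norm_num
    rw [one_mul] at h9
    have e3 : ((H : ℝ) ^ (1 / 2 : ℝ) + Real.log H ^ B' + 3) * Real.log H ^ B' ≤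
        ((H : ℝ) ^ (1 / 4 : ℝ)) ^ 4 := by
      rw [e1]
      have hy0 : 0 ≤ Real.log H ^ B' := by positivity
      generalize (H : ℝ) ^ (1 / 4 : ℝ) = x at h9 h10 h11 hq0
      generalize Real.log H ^ B' = y at h9 h10 hy0
      have hy : y ≤ x := h9
      have hx5 : 5 ≤ x := h11
      calc (x * x + y + 3) * y ≤ (x * x + x + 3) * x := by gcongr
        _ ≤ x ^ 4 := by nlinarith [mul_pos hq0 hq0, mul_pos (mul_pos hq0 hq0) hq0]
    exact e3.trans e2.symm.le

/-- the modulus `W` -/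
theorem exW (s1 N T : ℕ) (hN : 1 ≤ N) :
    ((primorial (s1 + T * ⌈Real.log N⌉₊) : ℕ) : ℝ) ≤ (4 : ℝ) ^ (s1 + T) * (N : ℝ) ^ (2 * T) := by
  have hN0 : (0 : ℝ) < N := by exact_mod_cast hN
  have hlN : 0 ≤ Real.log N := Real.log_nonneg (by exact_mod_cast hN)
  have hlog4 : Real.log 4 ≤ 2 := by
    have : Real.log 4 = 2 * Real.log 2 := by
      rw [show (4 : ℝ) = 2 ^ 2 by norm_num, Real.log_pow]; push_cast; ring
    rw [this]
    linarith [Real.log_two_lt_d9]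
  have hlog40 : 0 < Real.log 4 := Real.log_pos (by norm_num)
  have h1 : ((primorial (s1 + T * ⌈Real.log N⌉₊) : ℕ) : ℝ) ≤ (4 : ℝ) ^ (s1 + T * ⌈Real.log N⌉₊) := by
    exact_mod_cast primorial_le_four_pow _
  have h2 : ((⌈Real.log N⌉₊ : ℕ) : ℝ) ≤ Real.log N + 1 := (Nat.ceil_lt_add_one hlN).le
  have h3 : (4 : ℝ) ^ ⌈Real.log N⌉₊ ≤ 4 * (N : ℝ) ^ 2 := by
    calc (4 : ℝ) ^ ⌈Real.log N⌉₊ = Real.exp (Real.log 4 * (⌈Real.log N⌉₊ : ℕ)) := by
          rw [Real.exp_mul, Real.exp_log (by norm_num), Real.rpow_natCast]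
      _ ≤ Real.exp (Real.log 4 * (Real.log N + 1)) := by
          apply Real.exp_le_exp.2
          gcongr
      _ = 4 * Real.exp (Real.log 4 * Real.log N) := by
          rw [mul_add, mul_one, Real.exp_add, Real.exp_log (by norm_num)]; ring
      _ ≤ 4 * Real.exp (2 * Real.log N) := by gcongr
      _ = 4 * (N : ℝ) ^ 2 := by
          rw [two_mul, Real.exp_add, Real.exp_log hN0]; ring
  refine h1.trans ?_
  calc (4 : ℝ) ^ (s1 + T * ⌈Real.log N⌉₊) = 4 ^ s1 * (4 ^ ⌈Real.log N⌉₊) ^ T := by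
        rw [pow_add, ← pow_mul, mul_comm T]
    _ ≤ 4 ^ s1 * (4 * (N : ℝ) ^ 2) ^ T := by gcongr
    _ = _ := by rw [mul_pow, ← pow_mul, pow_add]; ring

open Classical in
theorem eng (hRS : S_RS) (hMK : S_MK) (hMAJ : T_MAJ) : T_ENG := by
  intro k g δ κ hk hδ hκ
  set M : ℕ := 2 * (k * 2 ^ k) with hM
  obtain ⟨c, hc, hMAJ⟩ := hMAJ g M δ hδ
  obtain ⟨δ₀, hδ₀d⟩ : ∃ δ₀ : ℝ, δ₀ = c * κ / 24 := ⟨_, rfl⟩
  have hδ₀ : 0 < δ₀ := by rw [hδ₀d]; positivity
  obtain ⟨cR, ηR, hcR, hηR, hRS⟩ := hRS k hk δ₀ hδ₀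
  obtain ⟨η, hηd⟩ : ∃ η : ℝ, η = min ηR δ₀ := ⟨_, rfl⟩
  have hη : 0 < η := by rw [hηd]; exact lt_min hηR hδ₀
  have hηR' : η ≤ ηR := by rw [hηd]; exact min_le_left _ _
  have hηδ : η ≤ δ₀ := by rw [hηd]; exact min_le_right _ _
  obtain ⟨η', hη', hMK⟩ := hMK k hk η hη
  obtain ⟨B, s₀, ε₀, hε₀, hMAJ⟩ := hMAJ η' hη'
  refine ⟨ε₀, hε₀, fun T₀ => ?_⟩
  obtain ⟨T, hT⟩ : ∃ T : ℕ, T = T₀ + 1 := ⟨_, rfl⟩
  obtain ⟨BN, hBN⟩ : ∃ BN : ℕ, BN = M * B + k * B + 1 := ⟨_, rfl⟩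
  obtain ⟨B', hB'⟩ : ∃ B' : ℕ, B' = 2 * T * BN + 3 := ⟨_, rfl⟩
  obtain ⟨H₁, hMAJ⟩ := hMAJ B'
  obtain ⟨q, hq1, hq⟩ := Nat.exists_infinite_primes (2 * g + 2)
  obtain ⟨s1, hs1⟩ : ∃ s1 : ℕ, s1 = s₀ + q := ⟨_, rfl⟩
  obtain ⟨KV, hKV1, hKV⟩ := V_lower
  obtain ⟨H₂, hnum⟩ := nums k g BN s1 T B' δ κ η' cR KV hδ hκ hη' hcR (by omega) hB'
  refine ⟨2 * B', max H₁ H₂, ?_⟩
  intro H hH
  obtain ⟨n1, n2, n3, n4, n5, n6, n7, n8, n9, n10⟩ := hnum H ((le_max_right _ _).trans hH)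
  have hHH₁ : H₁ ≤ H := (le_max_left _ _).trans hH
  obtain ⟨l, hl⟩ : ∃ l : ℝ, l = Real.log H := ⟨_, rfl⟩
  rw [← hl] at n2 n3 n4 n5 n6 n7 n8 n9 n10 ⊢
  have hk0 := (Nat.cast_nonneg k : (0 : ℝ) ≤ k)
  have hl8 : 8 ≤ l := by linarith
  have hl1 : 1 ≤ l := by linarith
  have hl0 : 0 < l := by linarith
  have hH0 : (0 : ℝ) < H := by exact_mod_cast (show 0 < H by omega)
  have hlBN : l ≤ l ^ BN := le_self_pow₀ hl1 (by omega)
  obtain ⟨N, hNp, hNk, hN1, hN2⟩ := exN k (l ^ BN) (n2.trans hlBN)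
  have : NeZero N := ⟨hNp.ne_zero⟩
  have hN0 : (0 : ℝ) < N := by exact_mod_cast hNp.pos
  have hNB' : (N : ℝ) ≤ l ^ B' := hN2.trans n6
  obtain ⟨S, hS⟩ : ∃ S : ℕ, S = s1 + T * ⌈Real.log N⌉₊ := ⟨_, rfl⟩
  obtain ⟨W, hW⟩ : ∃ W : ℕ, W = primorial S := ⟨_, rfl⟩
  have hW1 := exW s1 N T hNp.one_lt.le
  rw [← hS, ← hW] at hW1
  have hWpos : 0 < W := by rw [hW]; exact primorial_pos S
  have hW0 : (0 : ℝ) < W := by exact_mod_cast hWpos
  have hWB' : (W : ℝ) ≤ l ^ B' := by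
    refine hW1.trans (le_trans ?_ n5)
    gcongr
  have hWsq : Squarefree W := by
    rw [hW]
    unfold primorial
    exact Finset.squarefree_prod_of_pairwise_isCoprime (by
      intro a ha b hb hab
      rw [mem_coe, mem_filter] at ha hb
      exact Nat.coprime_iff_isRelPrime.1 ((Nat.coprime_primes ha.2 hb.2).2 hab)) (by
      intro p hp
      rw [mem_filter] at hp
      exact hp.2.prime.squarefree)
  have hqW : q ∣ W := by
    rw [hW]
    exact hq.dvd_primorial_iff.2 (by omega)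
  have hqle : q ≤ W := Nat.le_of_dvd hWpos hqW
  have hgW : g ≤ W := by omega
  have hWp : ∀ p : ℕ, p.Prime → p ≤ S → p ∣ W := fun p hp hpS => by
    rw [hW]; exact hp.dvd_primorial_iff.2 hpS
  have hWp' : ∀ p : ℕ, p.Prime → p ∣ W → p ≤ S := fun p hp hpW => by
    rw [hW] at hpW; exact hp.dvd_primorial_iff.1 hpW
  have hlogN : Real.log N ≤ B' * l := by
    calc Real.log N ≤ Real.log (l ^ B') := Real.log_le_log hN0 hNB'
      _ = B' * Real.log l := by rw [Real.log_pow]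
      _ ≤ B' * l := by
          gcongr
          linarith [Real.log_le_sub_one_of_pos hl0]
  have hSle : (S : ℝ) ≤ ((s1 : ℝ) + T + T * B') * l := by
    have h1 : ((⌈Real.log N⌉₊ : ℕ) : ℝ) ≤ Real.log N + 1 :=
      (Nat.ceil_lt_add_one (Real.log_nonneg (by exact_mod_cast hNp.one_lt.le))).le
    have h2 : (s1 : ℝ) ≤ s1 * l := by
      have := (Nat.cast_nonneg s1 : (0 : ℝ) ≤ s1)
      nlinarith
    have hT0 := (Nat.cast_nonneg T : (0 : ℝ) ≤ T)
    have h3 : (T : ℝ) * (⌈Real.log N⌉₊ : ℕ) ≤ T * (B' * l + l) := by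
      apply mul_le_mul_of_nonneg_left _ hT0
      linarith
    rw [hS]
    push_cast
    nlinarith
  have hSδ : (S : ℝ) ≤ (H : ℝ) ^ δ := hSle.trans n8
  have hSH : S ≤ H := by
    have : (S : ℝ) ≤ H := hSle.trans n9
    exact_mod_cast this
  refine ⟨W, N, S, hWpos, ?_, hNp.one_lt.le, ?_, ?_, fun p hp => ⟨hWp' p hp, hWp p hp⟩, ?_⟩
  · exact hlBN.trans hN1
  · calc (W : ℝ) * N ≤ l ^ B' * l ^ B' := by gcongr
      _ = l ^ (2 * B') := by rw [← pow_add, two_mul]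
  · have h1 := Nat.le_ceil (Real.log N)
    have h0 : 0 ≤ Real.log N := Real.log_nonneg (by exact_mod_cast hNp.one_lt.le)
    have hT0 := (Nat.cast_nonneg T₀ : (0 : ℝ) ≤ T₀)
    have hs0 := (Nat.cast_nonneg s1 : (0 : ℝ) ≤ s1)
    rw [hS, hT]
    push_cast
    nlinarith
  intro F Y A hF hCo hsize hAsub hArough hAcard
  -- the class
  obtain ⟨b, hbW, hAb⟩ := exb hF W H hWsq (fun p hp hpW => (hWp' p hp hpW).trans hSH) A κ hκ (by omega)
    (by
      intro n hn p hp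
      have hpp := Nat.prime_of_mem_primeFactors hp
      apply hArough n hn p hpp
      have h1 : (p : ℝ) ≤ S := by exact_mod_cast hWp' p hpp (Nat.dvd_of_mem_primeFactors hp)
      exact h1.trans hSδ) hAcard
  -- the majorant
  obtain ⟨ν, hν0, hνB, hνA, hνc⟩ := hMAJ F Y H W N S hF hHH₁ hsize hWpos hNp.one_lt.le
    (by rw [← hl]; exact hWB') (by rw [← hl]; exact hNB') (by omega) hWp hCo
  rw [← hl] at hνB
  have hVpos := V_pos hF W H
  have hVlow := hKV g F W H hF n1 (fun p hp hpg => hWp p hp (by omega))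
  rw [← hl] at hVlow
  -- the windows
  have hHW : (H : ℝ) / W - 1 ≤ ((H / W : ℕ) : ℝ) := by
    have h1 := Nat.lt_div_mul_add (a := H) hWpos
    have h2 : (H : ℝ) < (H / W : ℕ) * W + W := by exact_mod_cast h1
    rw [sub_le_iff_le_add, div_le_iff₀ hW0]
    linarith
  have hbigL : (H : ℝ) ^ (1 / 2 : ℝ) + N + 3 ≤ H / W := by
    rw [le_div_iff₀ hW0]
    refine le_trans ?_ n10
    have : 0 ≤ (H : ℝ) ^ (1 / 2 : ℝ) := by positivity
    gcongr
  obtain ⟨L, hL⟩ : ∃ L : ℕ, L + N + 1 = H / W := by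
    refine ⟨H / W - N - 1, ?_⟩
    have h1 : (N : ℝ) + 1 ≤ ((H / W : ℕ) : ℝ) := by
      have : 0 ≤ (H : ℝ) ^ (1 / 2 : ℝ) := by positivity
      linarith
    have h2 : N + 1 ≤ H / W := by exact_mod_cast h1
    omega
  have hLreal : (H : ℝ) ^ (1 / 2 : ℝ) + 1 ≤ L := by
    have h1 : (L : ℝ) + N + 1 = ((H / W : ℕ) : ℝ) := by exact_mod_cast hL
    linarith
  have hL0 : (0 : ℝ) < L := by
    have : 0 ≤ (H : ℝ) ^ (1 / 2 : ℝ) := by positivity
    linarith
  have hL1 : 1 ≤ L := by exact_mod_cast hL0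
  obtain ⟨M₀, hM₀⟩ : ∃ M₀ : ℕ, M₀ = Y / W := ⟨_, rfl⟩
  have hwin : ∀ K ∈ Ioc M₀ (M₀ + L), ∀ a : ZMod N, W * (K + rp a) + b ∈ Ioc Y (Y + H) := by
    intro K hK a
    rw [mem_Ioc] at hK ⊢
    have ha1 := rp_pos a
    have ha2 := rp_le a
    have h1 : W * (Y / W) ≤ Y := Nat.mul_div_le Y W
    have h2 : Y < W * (Y / W) + W := Nat.lt_mul_div_succ Y hWpos |>.trans_eq (by ring)
    have h3 : W * (H / W) ≤ H := Nat.mul_div_le H W
    constructor
    · have h4 : W * (M₀ + 2) ≤ W * (K + rp a) := Nat.mul_le_mul_left _ (by omega)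
      have h5 : W * (M₀ + 2) = W * (Y / W) + W + W := by rw [hM₀]; ring
      omega
    · have h4 : W * (K + rp a) ≤ W * (M₀ + L + N) := Nat.mul_le_mul_left _ (by omega)
      have h5 : W * (M₀ + L + N) + W = W * (Y / W) + W * (L + N + 1) := by rw [hM₀]; ring
      rw [hL] at h5
      omega
  -- the linear forms condition
  have hcardI : (Ioc M₀ (M₀ + L)).card = L := by rw [Nat.card_Ioc]; omega
  have hlN1 : l ^ (M * B) * l ≤ N := by
    refine le_trans ?_ hN1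
    rw [← pow_succ]
    exact pow_le_pow_right₀ hl1 (by omega)
  have hlN2 : l ^ (k * B) * l ≤ N := by
    refine le_trans ?_ hN1
    rw [← pow_succ]
    apply pow_le_pow_right₀ hl1
    rw [hBN]
    have := Nat.zero_le (M * B)
    omega
  obtain ⟨hav, hLF⟩ := hMK N hNp (by omega) (Ioc M₀ (M₀ + L)) (wK ν N W b) (l ^ B)
    (by rw [← card_pos, hcardI]; omega) (one_le_pow₀ hl1) (fun K a => hν0 _)
    (fun K hK a => hνB _ (hwin K hK a))
    (by
      refine le_trans ?_ n3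
      rw [← hM, ← pow_mul, mul_comm B M, div_le_div_iff₀ hN0 hl0, one_mul]
      exact hlN1)
    (by
      intro m hm u hu
      rw [hcardI]
      exact hνc m hm (fun i => rp (u i)) (by
        intro i j hij
        apply hu
        have h1 := congrArg (fun x : ℕ => (x : ZMod N)) hij
        simp only [rp_cast] at h1
        exact h1) (fun i => ⟨rp_pos _, rp_le _⟩) b M₀ L (by linarith) (fun K hK i => hwin K hK (u i)))
  rw [hcardI] at hav hLF
  obtain ⟨h, hh⟩ : ∃ h : ℕ, h = (N - 1) / 2 := ⟨_, rfl⟩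
  have hνA' : ∀ n ∈ A, c ≤ ν n * V F W H := fun n hn => hνA n (hAsub hn) (hArough n hn)
  have hbig : 2 * ((N : ℝ) + 4) ≤ κ * (H / W * V F W H) := by
    have hKVl : 0 < (KV * l) ^ (2 * g) := by positivity
    have h1 : 2 * ((N : ℝ) + 4) ≤ 10 * l ^ B' := by
      have : 1 ≤ l ^ B' := one_le_pow₀ hl1
      linarith
    have h2 : 10 * l ^ B' * (W * (KV * l) ^ (2 * g)) ≤ κ * H := by
      refine le_trans ?_ n7
      calc 10 * l ^ B' * (W * (KV * l) ^ (2 * g)) ≤ 10 * l ^ B' * (l ^ B' * (KV * l) ^ (2 * g)) := by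
            gcongr
        _ = _ := by ring
    calc 2 * ((N : ℝ) + 4) ≤ 10 * l ^ B' := h1
      _ ≤ κ * (H / W * (1 / (KV * l) ^ (2 * g))) := by
          rw [div_mul_div_comm, mul_one, mul_div_assoc', le_div_iff₀ (by positivity)]
          exact h2
      _ ≤ _ := by gcongr
  obtain ⟨K, hK, hKB, hKδ⟩ := goodK ν A Y H W b M₀ L N h c (V F W H) κ δ₀ η
    ((Ioc M₀ (M₀ + L)).filter (fun K => ¬ LFk k N (wK ν N W b K) η)) hν0 hWpos hbW hAsub hM₀ hL hL1
    (by omega) hh hVpos hc hκ hνA' hAb hbig hδ₀ (by rw [hδ₀d]; linarith) hav (filter_subset _ _) hLF hηδ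
  rw [mem_filter, not_and, not_not] at hKB
  have hKLF := hKB hK
  -- the progression
  have hAP := hRS N hNp (by omega) (wK ν N W b K) (gK ν A N W b h K)
    (fun a => ⟨gK_nonneg ν hν0 A N W b h K a, gK_le ν hν0 A N W b h K a⟩) (LF_mono hKLF hηR') hKδ
  have hMb : ∀ a, gK ν A N W b h K a ≤ l ^ B := fun a =>
    (gK_le ν hν0 A N W b h K a).trans (hνB _ (hwin K hK a))
  obtain ⟨a, d, hd, had⟩ := exAP k N (gK ν A N W b h K) (gK_nonneg ν hν0 A N W b h K) _ cR hMb hAP (by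
    refine lt_of_le_of_lt ?_ n4
    rw [← pow_mul, mul_comm B k, div_le_div_iff₀ hN0 hl0, one_mul]
    exact hlN2)
  have had2 : ∀ j < k, rp (a + (j : ZMod N) * d) ≤ h ∧ W * (K + rp (a + (j : ZMod N) * d)) + b ∈ A := by
    intro j hj
    have := had j hj
    unfold gK at this
    by_contra hcon
    rw [if_neg hcon] at this
    exact this rfl
  obtain ⟨a', r, ha', hr, hlift⟩ := lift k N h hk (by omega) a d hd (fun j hj => (had2 j hj).1)
  refine ⟨W * (K + a') + b, W * r, Nat.mul_pos hWpos hr, ?_, ?_⟩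
  · have h1 : a' + 1 * r ≤ h := by
      obtain ⟨j', hj', e⟩ := hlift 1 (by omega)
      rw [e]
      exact (had2 j' hj').1
    have h2 : (r : ℝ) ≤ N := by
      have : r ≤ N := by omega
      exact_mod_cast this
    push_cast
    calc (W : ℝ) * r ≤ l ^ B' * l ^ B' := by
          gcongr
          exact h2.trans hNB'
      _ = l ^ (2 * B') := by rw [← pow_add, two_mul]
  · intro i hi
    obtain ⟨j', hj', e⟩ := hlift i hi
    have h1 := (had2 j' hj').2
    rw [← e] at h1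
    have h2 : W * (K + a') + b + i * (W * r) = W * (K + (a' + i * r)) + b := by ring
    rw [h2]
    exact h1

end Pool.Agent.E8helper70.AP
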