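import Mathlib
import Pool.Agent.Y394.PSP.LOC

/-!
# Progressions of prime pairs: integers with many small prime factors above `S` are rare
-/

set_option autoImplicit false

open Finset

namespace Pool.Agent.E8helper70.AP

/-- the sum of the reciprocals of the prime factors larger than `S` -/
noncomputable def rsum (S u : ℕ) : ℝ := ∑ p ∈ u.primeFactors.filter (fun p => S < p), (1 : ℝ) / p

theorem rsum_nonneg (S u : ℕ) : 0 ≤ rsum S u := sum_nonneg fun _ _ => by positivity

theorem rsum_mul (S a b : ℕ) (ha : a ≠ 0) (hb : b ≠ 0) : rsum S (a * b) ≤ rsum S a + rsum S b := by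
  unfold rsum
  rw [Nat.primeFactors_mul ha hb, filter_union]
  have h := sum_union_inter (s₁ := a.primeFactors.filter (fun p => S < p))
    (s₂ := b.primeFactors.filter (fun p => S < p)) (f := fun p : ℕ => (1 : ℝ) / p)
  have h2 : 0 ≤ ∑ p ∈ a.primeFactors.filter (fun p => S < p) ∩ b.primeFactors.filter (fun p => S < p),
      (1 : ℝ) / p := sum_nonneg fun _ _ => by positivity
  linarith

/-- few prime factors -/
theorem rsum_small (S t : ℕ) (ht : 1 ≤ t) (hS : 1 ≤ S) : rsum S t ≤ 2 * Real.log t / S := by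
  have hS0 : (0 : ℝ) < S := by exact_mod_cast hS
  have h1 : rsum S t ≤ ∑ p ∈ t.primeFactors, (1 : ℝ) / S := by
    unfold rsum
    refine (sum_le_sum (g := fun _ => (1 : ℝ) / S) fun p hp => ?_).trans
      (sum_le_sum_of_subset_of_nonneg (filter_subset _ _) fun _ _ _ => by positivity)
    rw [mem_filter] at hp
    have : (S : ℝ) ≤ p := by exact_mod_cast hp.2.le
    gcongr
  refine h1.trans ?_
  rw [sum_const, nsmul_eq_mul]
  have h2 : (2 : ℕ) ^ t.primeFactors.card ≤ t := by
    calc 2 ^ t.primeFactors.card = ∏ p ∈ t.primeFactors, 2 := by rw [prod_const]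
      _ ≤ ∏ p ∈ t.primeFactors, p := prod_le_prod' fun p hp => (Nat.prime_of_mem_primeFactors hp).two_le
      _ ≤ t := Nat.le_of_dvd (by omega) (Nat.prod_primeFactors_dvd t)
  have h3 : ((2 : ℝ)) ^ t.primeFactors.card ≤ t := by exact_mod_cast h2
  have h4 := Real.log_le_log (by positivity) h3
  rw [Real.log_pow] at h4
  have h5 := Real.log_two_gt_d9
  have h6 : (t.primeFactors.card : ℝ) ≤ 2 * Real.log t := by
    have : (0 : ℝ) ≤ t.primeFactors.card := Nat.cast_nonneg _
    nlinarith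
  rw [mul_one_div]
  gcongr

/-- exponential moment -/
theorem exp_moment (S X : ℕ) (hS : 2 ≤ S) :
    ∑ u ∈ Icc 1 X, Real.exp (S * rsum S u) ≤ X * Real.exp 4 := by
  classical
  have hS0 : (0 : ℝ) < S := by exact_mod_cast (by omega : 0 < S)
  set Q := (Icc 1 X).filter (fun p => p.Prime ∧ S < p) with hQ
  set a : ℕ → ℝ := fun p => Real.exp (S / p) - 1 with ha
  have ha0 : ∀ p, 0 ≤ a p := fun p => by
    simp only [ha]
    have : 0 ≤ (S : ℝ) / p := by positivity
    linarith [Real.one_le_exp this]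
  have hQp : ∀ p ∈ Q, p.Prime ∧ S < p := fun p hp => by
    rw [hQ, mem_filter] at hp
    exact hp.2
  have ha1 : ∀ p ∈ Q, a p ≤ 2 * (S / p) := by
    intro p hp
    have h1 := (hQp p hp).2
    have hp0 : (0 : ℝ) < p := by exact_mod_cast (by omega : 0 < p)
    have h2 : (S : ℝ) / p ≤ 1 := by
      rw [div_le_one hp0]
      exact_mod_cast h1.le
    have h3 : 0 ≤ (S : ℝ) / p := by positivity
    have h4 := Real.abs_exp_sub_one_le (x := (S : ℝ) / p) (by rwa [abs_of_nonneg h3])
    rw [abs_of_nonneg h3] at h4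
    simp only [ha]
    exact (le_abs_self _).trans h4
  have h1 : ∀ u ∈ Icc 1 X, Real.exp (S * rsum S u) =
      ∑ t ∈ Q.powerset, ∏ p ∈ t, (if p ∣ u then a p else 0) := by
    intro u hu
    rw [mem_Icc] at hu
    rw [← prod_one_add]
    have e1 : u.primeFactors.filter (fun p => S < p) = Q.filter (fun p => p ∣ u) := by
      ext p
      rw [mem_filter, mem_filter, hQ, mem_filter, mem_Icc, Nat.mem_primeFactors]
      constructor
      · rintro ⟨⟨h1, h2, h3⟩, h4⟩
        exact ⟨⟨⟨h1.one_lt.le, (Nat.le_of_dvd (by omega) h2).trans hu.2⟩, h1, h4⟩, h2⟩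
      · rintro ⟨⟨_, h1, h4⟩, h2⟩
        exact ⟨⟨h1, h2, by omega⟩, h4⟩
    unfold rsum
    rw [e1, sum_filter, mul_sum, Real.exp_sum]
    apply prod_congr rfl
    intro p _
    split_ifs
    · simp only [ha]
      rw [mul_one_div]
      ring
    · simp
  rw [sum_congr rfl h1, sum_comm]
  have h2 : ∀ t ∈ Q.powerset, ∑ u ∈ Icc 1 X, ∏ p ∈ t, (if p ∣ u then a p else 0) ≤
      X * ∏ p ∈ t, (a p / p) := by
    intro t ht
    rw [mem_powerset] at ht
    have e1 : ∀ u ∈ Icc 1 X, ∏ p ∈ t, (if p ∣ u then a p else 0) ≤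
        if (∏ p ∈ t, p) ∣ u then ∏ p ∈ t, a p else 0 := by
      intro u _
      by_cases h : ∀ p ∈ t, p ∣ u
      · rw [if_pos]
        · exact (prod_congr rfl fun p hp => if_pos (h p hp)).le
        · exact prod_primes_dvd u (fun p hp => (hQp p (ht hp)).1.prime) h
      · push Not at h
        obtain ⟨p, hp, hpu⟩ := h
        rw [prod_eq_zero hp (if_neg hpu)]
        split_ifs
        · exact prod_nonneg fun p _ => ha0 p
        · exact le_rfl
    refine (sum_le_sum e1).trans ?_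
    rw [← sum_filter, sum_const, nsmul_eq_mul]
    have e2 : ((Icc 1 X).filter (fun u => (∏ p ∈ t, p) ∣ u)).card = X / ∏ p ∈ t, p := by
      rw [← Nat.Ioc_filter_dvd_card_eq_div]
      rfl
    rw [e2]
    have e3 : (((X / ∏ p ∈ t, p : ℕ) : ℕ) : ℝ) ≤ X / ∏ p ∈ t, (p : ℝ) := by
      refine Nat.cast_div_le.trans ?_
      push_cast
      exact le_rfl
    have e4 : 0 ≤ ∏ p ∈ t, a p := prod_nonneg fun p _ => ha0 p
    calc (((X / ∏ p ∈ t, p : ℕ) : ℕ) : ℝ) * ∏ p ∈ t, a p ≤ (X / ∏ p ∈ t, (p : ℝ)) * ∏ p ∈ t, a p := by gcongr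
      _ = X * ∏ p ∈ t, (a p / p) := by
        rw [prod_div_distrib]
        ring
  refine (sum_le_sum h2).trans ?_
  rw [← mul_sum, ← prod_one_add]
  apply mul_le_mul_of_nonneg_left _ (Nat.cast_nonneg X)
  have h3 : ∏ p ∈ Q, (1 + a p / p) ≤ ∏ p ∈ Q, Real.exp (a p / p) := by
    apply prod_le_prod
    · intro p _
      have : 0 ≤ a p / p := div_nonneg (ha0 p) (Nat.cast_nonneg _)
      linarith
    · intro p _
      rw [add_comm]
      exact Real.add_one_le_exp _
  refine h3.trans ?_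
  rw [← Real.exp_sum]
  apply Real.exp_le_exp.2
  have h4 : ∑ p ∈ Q, a p / p ≤ ∑ p ∈ Q, 2 * S * (1 / (p : ℝ) ^ 2) := by
    apply sum_le_sum
    intro p hp
    have h1 := (hQp p hp).2
    have hp0 : (0 : ℝ) < p := by exact_mod_cast (by omega : 0 < p)
    calc a p / p ≤ (2 * (S / p)) / p := div_le_div_of_nonneg_right (ha1 p hp) hp0.le
      _ = 2 * S * (1 / (p : ℝ) ^ 2) := by
        field_simp
  refine h4.trans ?_
  rw [← mul_sum]
  have h5 := Pool.Agent.Y394.PSP.sum_inv_sq_le (s := (S : ℝ)) (by exact_mod_cast (by omega : 1 < S)) Q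
    (fun p hp => by exact_mod_cast (hQp p hp).2)
  calc 2 * (S : ℝ) * ∑ p ∈ Q, (1 : ℝ) / (p : ℝ) ^ 2 ≤ 2 * S * (2 / S) := by gcongr
    _ = 4 := by field_simp; norm_num

theorem rsum_count (S X : ℕ) (ε : ℝ) (hS : 2 ≤ S) :
    (((Icc 1 X).filter (fun u => ε < rsum S u)).card : ℝ) ≤ X * Real.exp (4 - ε * S) := by
  classical
  have hS0 : (0 : ℝ) < S := by exact_mod_cast (by omega : 0 < S)
  have h1 : (((Icc 1 X).filter (fun u => ε < rsum S u)).card : ℝ) * Real.exp (ε * S) ≤ X * Real.exp 4 := by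
    refine le_trans ?_ (exp_moment S X hS)
    calc (((Icc 1 X).filter (fun u => ε < rsum S u)).card : ℝ) * Real.exp (ε * S) =
          ∑ u ∈ (Icc 1 X).filter (fun u => ε < rsum S u), Real.exp (ε * S) := by
          rw [sum_const, nsmul_eq_mul]
      _ ≤ ∑ u ∈ (Icc 1 X).filter (fun u => ε < rsum S u), Real.exp (S * rsum S u) := by
          apply sum_le_sum
          intro u hu
          rw [mem_filter] at hu
          apply Real.exp_le_exp.2
          rw [mul_comm]
          exact mul_le_mul_of_nonneg_left hu.2.le hS0.le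
      _ ≤ _ := sum_le_sum_of_subset_of_nonneg (filter_subset _ _) fun _ _ _ => (Real.exp_pos _).le
  rw [sub_eq_add_neg, Real.exp_add, Real.exp_neg, ← mul_assoc, ← div_eq_mul_inv, le_div_iff₀ (Real.exp_pos _)]
  exact h1

end Pool.Agent.E8helper70.AP
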