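import Pool.Agent.E8helper70.AP.Stm
import Pool.Agent.E8helper70.AP.Typ
import Pool.Agent.Y677.RSZ.Eng1
import Pool.Agent.H305R2.MertensE

/-!
# Progressions of prime pairs: the polynomials `n (n + h)`
-/

set_option autoImplicit false

open Finset

namespace Pool.Agent.E8helper70.AP

open Pool.Agent.Y677.RSZ (rt rhoT V)
open Pool.Agent.TH423.SH (PS)

/-- `n (n + h)` -/
def Fh (h : ℕ) (n : ℤ) : ℤ := n * (n + h)

theorem rt_sub (h p : ℕ) (hp : p.Prime) :
    (range p).filter (fun r : ℕ => (p : ℤ) ∣ Fh h r) ⊆ {0, (p - h % p) % p} := by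
  intro r hr
  rw [mem_filter, mem_range] at hr
  obtain ⟨h1, h2⟩ := hr
  rw [mem_insert, mem_singleton]
  unfold Fh at h2
  have h3 : p ∣ r * (r + h) := by exact_mod_cast h2
  rcases hp.dvd_mul.1 h3 with h4 | h4
  · left
    by_contra h5
    have := Nat.le_of_dvd (by omega) h4
    omega
  · right
    have h5 : h % p < p := Nat.mod_lt _ hp.pos
    have h6 : p ∣ r + h % p := by
      have e : r + h = r + h % p + p * (h / p) := by
        have := Nat.div_add_mod h p
        omega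
      rw [e] at h4
      exact (Nat.dvd_add_left (dvd_mul_right _ _)).1 h4
    rcases Nat.eq_zero_or_pos (h % p) with h7 | h7
    · rw [h7, add_zero] at h6
      rw [h7, Nat.sub_zero, Nat.mod_self]
      by_contra h8
      have := Nat.le_of_dvd (by omega) h6
      omega
    · obtain ⟨c, hc⟩ := h6
      have hc1 : c = 1 := by
        have h8 : 0 < p * c := by omega
        have h9 : 0 < c := Nat.pos_of_mul_pos_left h8 |> fun _ => by
          rcases Nat.eq_zero_or_pos c with h10 | h10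
          · rw [h10, mul_zero] at h8; omega
          · exact h10
        have h10 : p * c < p * 2 := by omega
        have h11 := Nat.lt_of_mul_lt_mul_left h10
        omega
      rw [hc1, mul_one] at hc
      rw [Nat.mod_eq_of_lt (by omega)]
      omega

theorem sy_Fh (h : ℕ) (hh : Even h) : Sy 3 (Fh h) := by
  refine ⟨fun p _ n => ?_, fun p hp => ?_⟩
  · refine ⟨2 * n + p + h, ?_⟩
    unfold Fh
    ring
  · have h1 := card_le_card (rt_sub h p hp)
    have h2 : ({0, (p - h % p) % p} : Finset ℕ).card ≤ 2 := card_le_two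
    unfold rt
    have h3 := h1.trans h2
    refine ⟨h3.trans (by norm_num), ?_⟩
    rcases Nat.lt_or_ge 2 p with h4 | h4
    · omega
    · have h5 : p = 2 := le_antisymm h4 hp.two_le
      subst h5
      have h6 : (2 - h % 2) % 2 = 0 := by
        rw [Nat.even_iff.1 hh]
      rw [h6] at h1
      have h7 : ({0, 0} : Finset ℕ).card = 1 := by simp
      omega

/-- lower bounds for the number of the roots -/
theorem rt_low (h p : ℕ) (hp : p.Prime) : 1 ≤ rt (Fh h) p ∧ (¬ p ∣ h → 2 ≤ rt (Fh h) p) := by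
  have h0 : 0 ∈ (range p).filter (fun r : ℕ => (p : ℤ) ∣ Fh h r) := by
    rw [mem_filter, mem_range]
    refine ⟨hp.pos, ?_⟩
    unfold Fh
    simp
  constructor
  · unfold rt
    exact card_pos.2 ⟨0, h0⟩
  · intro hph
    have hm : 0 < h % p := Nat.pos_of_ne_zero fun h1 => hph (Nat.dvd_of_mod_eq_zero h1)
    have hm2 : h % p < p := Nat.mod_lt _ hp.pos
    have h1 : p - h % p ∈ (range p).filter (fun r : ℕ => (p : ℤ) ∣ Fh h r) := by
      rw [mem_filter, mem_range]
      refine ⟨by omega, ?_⟩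
      unfold Fh
      have h2 : p ∣ (p - h % p) + h := by
        have e : (p - h % p) + h = p * (1 + h / p) := by
          have h3 := Nat.div_add_mod h p
          have h4 : p * (1 + h / p) = p + p * (h / p) := by ring
          omega
        rw [e]
        exact dvd_mul_right _ _
      have h3 : p ∣ (p - h % p) * ((p - h % p) + h) := h2.mul_left _
      exact_mod_cast h3
    unfold rt
    have h2 : ({0, p - h % p} : Finset ℕ) ⊆ (range p).filter (fun r : ℕ => (p : ℤ) ∣ Fh h r) := by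
      intro r hr
      rw [mem_insert, mem_singleton] at hr
      rcases hr with rfl | rfl
      · exact h0
      · exact h1
    have h3 : ({0, p - h % p} : Finset ℕ).card = 2 := card_pair (by omega)
    rw [← h3]
    exact card_le_card h2

theorem ratio_eq (h : ℕ) (hh : 1 ≤ h) : (h : ℝ) / h.totient = ∏ p ∈ h.primeFactors, (1 - 1 / (p : ℝ))⁻¹ := by
  have h1 : ((h.totient : ℕ) : ℚ) = h * ∏ p ∈ h.primeFactors, (1 - (p : ℚ)⁻¹) := Nat.totient_eq_mul_prod_factors h
  have h2 : ((h.totient : ℕ) : ℝ) = h * ∏ p ∈ h.primeFactors, (1 - (p : ℝ)⁻¹) := by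
    have := congrArg (fun x : ℚ => (x : ℝ)) h1
    push_cast at this
    exact this
  have hh0 : (h : ℝ) ≠ 0 := by
    have : h ≠ 0 := by omega
    exact_mod_cast this
  rw [h2, prod_inv_distrib]
  simp only [one_div]
  rw [div_mul_eq_div_div, div_self hh0, one_div]

theorem V_up (h H : ℕ) (hh : 1 ≤ h) (hhH : h ≤ H) (hm : 1 ≤ Real.log H)
    (hM : Real.log H ≤ ∏ p ∈ (Icc 1 H).filter Nat.Prime, (1 - 1 / (p : ℝ))⁻¹) :
    V (Fh h) 1 H ≤ (h : ℝ) / h.totient / Real.log H ^ 2 := by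
  classical
  set Q := (Icc 1 H).filter Nat.Prime with hQ
  have hPS : PS 1 H = Q := by
    unfold PS
    rw [hQ]
    apply filter_congr
    intro p _
    constructor
    · exact fun h => h.1
    · intro hp
      exact ⟨hp, fun h1 => hp.ne_one (Nat.dvd_one.1 h1)⟩
  have hpr : ∀ p ∈ Q, p.Prime := fun p hp => (mem_filter.1 hp).2
  have hx : ∀ p ∈ Q, 0 < 1 - 1 / (p : ℝ) := by
    intro p hp
    have h2 : (2 : ℝ) ≤ p := by exact_mod_cast (hpr p hp).two_le
    have : 1 / (p : ℝ) ≤ 1 / 2 := by gcongr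
    linarith
  have hsub : h.primeFactors ⊆ Q := by
    intro p hp
    rw [Nat.mem_primeFactors] at hp
    rw [hQ, mem_filter, mem_Icc]
    exact ⟨⟨hp.1.one_lt.le, (Nat.le_of_dvd (by omega) hp.2.1).trans hhH⟩, hp.1⟩
  have h1 : V (Fh h) 1 H ≤ ∏ p ∈ Q, ((1 - 1 / (p : ℝ)) ^ 2 * if p ∈ h.primeFactors then (1 - 1 / (p : ℝ))⁻¹ else 1) := by
    unfold V
    rw [hPS]
    apply prod_le_prod
    · intro p hp
      have h2 : rt (Fh h) p ≤ p := Pool.Agent.Y677.RSZ.rt_le p
      have h3 : (0 : ℝ) < p := by exact_mod_cast (hpr p hp).pos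
      rw [sub_nonneg, div_le_one h3]
      exact_mod_cast h2
    · intro p hp
      have h3 : (0 : ℝ) < p := by exact_mod_cast (hpr p hp).pos
      obtain ⟨r1, r2⟩ := rt_low h p (hpr p hp)
      split_ifs with hd
      · have e : (1 - 1 / (p : ℝ)) ^ 2 * (1 - 1 / (p : ℝ))⁻¹ = 1 - 1 / (p : ℝ) := by
          rw [pow_two, mul_assoc, mul_inv_cancel₀ (hx p hp).ne', mul_one]
        rw [e]
        have : (1 : ℝ) ≤ rt (Fh h) p := by exact_mod_cast r1
        gcongr
      · have hd' : ¬ p ∣ h := fun h4 => hd (Nat.mem_primeFactors.2 ⟨hpr p hp, h4, by omega⟩)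
        have h5 : (2 : ℝ) ≤ rt (Fh h) p := by exact_mod_cast r2 hd'
        rw [mul_one]
        have h6 : 1 - (rt (Fh h) p : ℝ) / p ≤ 1 - 2 / p := by gcongr
        have h7 : (1 - 1 / (p : ℝ)) ^ 2 = 1 - 2 / p + (1 / p) ^ 2 := by ring
        have h8 : 0 ≤ (1 / (p : ℝ)) ^ 2 := by positivity
        linarith
  refine h1.trans ?_
  rw [prod_mul_distrib, prod_pow, prod_ite_mem, inter_eq_right.2 hsub, ← ratio_eq h hh]
  have h2 : (∏ p ∈ Q, (1 - 1 / (p : ℝ))) * (∏ p ∈ Q, (1 - 1 / (p : ℝ))⁻¹) = 1 := by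
    rw [← prod_mul_distrib]
    exact prod_eq_one fun p hp => mul_inv_cancel₀ (hx p hp).ne'
  have h3 : 0 < ∏ p ∈ Q, (1 - 1 / (p : ℝ)) := prod_pos hx
  have h4 : (∏ p ∈ Q, (1 - 1 / (p : ℝ))) * Real.log H ≤ 1 :=
    (mul_le_mul_of_nonneg_left hM h3.le).trans_eq h2
  have hL : 0 < Real.log H := by linarith
  have h5 : (∏ p ∈ Q, (1 - 1 / (p : ℝ))) ≤ 1 / Real.log H := by
    rw [le_div_iff₀ hL]
    exact h4
  have h6 : (∏ p ∈ Q, (1 - 1 / (p : ℝ))) ^ 2 ≤ 1 / Real.log H ^ 2 := by
    calc (∏ p ∈ Q, (1 - 1 / (p : ℝ))) ^ 2 ≤ (1 / Real.log H) ^ 2 := pow_le_pow_left₀ h3.le h5 2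
      _ = _ := by rw [div_pow, one_pow]
  calc (∏ p ∈ Q, (1 - 1 / (p : ℝ))) ^ 2 * ((h : ℝ) / h.totient) ≤ 1 / Real.log H ^ 2 * ((h : ℝ) / h.totient) := by
        gcongr
    _ = _ := by ring

/-- few collisions -/
theorem co_Fh (h X W N S : ℕ) (ε : ℝ) (hW : 1 ≤ W) (hWp : ∀ p : ℕ, p.Prime → (p ∣ W ↔ p ≤ S))
    (hWN : W * N < h) (hhX : h ≤ X)
    (h0 : ∀ t, 1 ≤ t → t ≤ N → rsum S t ≤ ε / 3)
    (h1 : ∀ t, 1 ≤ t → t ≤ N → rsum S (h + W * t) ≤ ε / 3)
    (h2 : ∀ t, 1 ≤ t → t ≤ N → rsum S (h - W * t) ≤ ε / 3) :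
    Co (Fh h) W N S (X ^ 3) ε := by
  intro t ht1 ht2
  have hw1 : 1 ≤ W * t := Nat.mul_pos hW ht1
  have hw2 : W * t ≤ W * N := Nat.mul_le_mul_left W ht2
  obtain ⟨w, hw⟩ : ∃ w, w = W * t := ⟨_, rfl⟩
  obtain ⟨c, hc⟩ : ∃ c, h = w + c ∧ 1 ≤ c := ⟨h - w, by omega, by omega⟩
  obtain ⟨hc, hc1⟩ := hc
  have hcw : h - W * t = c := by omega
  refine ⟨w * ((h + w) * c), ?_, ?_, ?_, ?_⟩
  · have : 1 ≤ h + w := by omega
    exact Nat.mul_pos (by omega) (Nat.mul_pos (by omega) (by omega))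
  · have e1 : (h + w) * c ≤ h * h := by
      rw [hc]
      nlinarith
    calc w * ((h + w) * c) ≤ X * (h * h) := Nat.mul_le_mul (by omega) e1
      _ ≤ X * (X * X) := Nat.mul_le_mul_left _ (Nat.mul_le_mul hhX hhX)
      _ = X ^ 3 := by ring
  · intro p hp n hn1 hn2
    unfold Fh at hn1 hn2
    rw [← hw] at hn2
    have hpp := Nat.prime_iff_prime_int.1 hp
    have key : (p : ℤ) ∣ (w : ℤ) ∨ (p : ℤ) ∣ ((h + w : ℕ) : ℤ) ∨ (p : ℤ) ∣ (c : ℤ) := by
      rcases hpp.dvd_or_dvd hn1 with a1 | a1 <;> rcases hpp.dvd_or_dvd hn2 with a2 | a2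
      · left
        have := dvd_sub a2 a1
        rwa [add_sub_cancel_left] at this
      · right; left
        have := dvd_sub a2 a1
        have e : n + (w : ℤ) + h - n = ((h + w : ℕ) : ℤ) := by push_cast; ring
        rwa [e] at this
      · right; right
        have := dvd_sub a1 a2
        have e : n + (h : ℤ) - (n + (w : ℤ)) = (c : ℤ) := by
          have : (h : ℤ) = w + c := by exact_mod_cast hc
          rw [this]; ring
        rwa [e] at this
      · left
        have := dvd_sub a2 a1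
        have e : n + (w : ℤ) + h - (n + (h : ℤ)) = (w : ℤ) := by ring
        rwa [e] at this
    rcases key with a | a | a
    · exact (Int.natCast_dvd_natCast.1 a).mul_right _
    · exact ((Int.natCast_dvd_natCast.1 a).mul_right _).mul_left _
    · exact ((Int.natCast_dvd_natCast.1 a).mul_left _).mul_left _
  · have b1 : rsum S w ≤ ε / 3 := by
      rw [hw]
      have b2 : rsum S W = 0 := by
        unfold rsum
        rw [filter_eq_empty_iff.2]
        · simp
        · intro p hp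
          rw [Nat.mem_primeFactors] at hp
          have := (hWp p hp.1).1 hp.2.1
          omega
      have b3 := rsum_mul S W t (by omega) (by omega)
      have b4 := h0 t ht1 ht2
      linarith
    have b2 := h1 t ht1 ht2
    rw [← hw] at b2
    have b3 := h2 t ht1 ht2
    rw [hcw] at b3
    have b4 := rsum_mul S w ((h + w) * c) (by omega) (by
      have : 0 < (h + w) * c := Nat.mul_pos (by omega) (by omega)
      omega)
    have b5 := rsum_mul S (h + w) c (by omega) (by omega)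
    have b6 : rsum S (w * ((h + w) * c)) ≤ ε := by linarith
    exact b6

end Pool.Agent.E8helper70.AP
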