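import Mathlib
import Pool.Agent.R906.GG.Twin

/-!
# Progressions of prime pairs: the number of the primes `p ≤ X` with `p + 2 a` prime, for almost all `a`
(after `Pool/Agent/R906/GG/Twin.lean`)
-/

set_option autoImplicit false

namespace Pool.Agent.E8helper70.AP

open Finset
open Pool.Agent.H560R3.GB (sing C₂ primeTuples tuple_upper ftuples_full)
open Pool.Agent.H373R2.T7 (nuP singZ tupleCount ev_log' ev_L')
open Pool.Agent.W93.GB (sh singZ_near one_le_sing)
open Pool.Agent.R521.GG (wt)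
open Pool.Agent.R906.GGF (wt_le two_le_log)
open Pool.Agent.R906.GGG (energyZ_one singZ_neg)

lemma good_low (X a U : ℕ) (hX : 64 ≤ X) (ha : 1 ≤ a) (h2 : 2 * a ≤ X) (hU : 4 ≤ Real.log X ^ U) (S : ℝ)
    (hS : sing (2 * a) / 2 ≤ S)
    (hT : |tupleCount (fun _ : Fin 1 => ((2 * a : ℕ) : ℤ)) X - S * X| ≤ (X : ℝ) / Real.log X ^ U) :
    1 / 32 * wt a * (X / Real.log X ^ 2) ≤ primeTuples (fun _ : Fin 1 => 2 * a) X := by
  have hXr : (64 : ℝ) ≤ X := by exact_mod_cast hX
  have hL := two_le_log X (by omega)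
  have hs1 := one_le_sing (2 * a)
  have hX0 : (0 : ℝ) < X := by linarith
  have hup := tuple_upper (fun _ : Fin 1 => 2 * a) X 1 (fun _ => by show 2 * a ≤ 1 * X; omega)
  have hup' : tupleCount (fun _ : Fin 1 => ((2 * a : ℕ) : ℤ)) X ≤
      Real.log (2 * X) ^ 2 * primeTuples (fun _ : Fin 1 => 2 * a) X := by
    have e : ((1 : ℕ) : ℝ) + 1 = 2 := by norm_num
    rw [e] at hup
    exact hup
  obtain ⟨h5, _⟩ := abs_le.1 hT
  have h6 : (X : ℝ) / Real.log X ^ U ≤ X / 4 := by
    apply div_le_div_of_nonneg_left hX0.le (by norm_num) hU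
  have h7 : sing (2 * a) * X / 4 ≤ tupleCount (fun _ : Fin 1 => ((2 * a : ℕ) : ℤ)) X := by
    have h8 : sing (2 * a) / 2 * X ≤ S * X := mul_le_mul_of_nonneg_right hS hX0.le
    have h9 : (X : ℝ) ≤ sing (2 * a) * X := le_mul_of_one_le_left hX0.le hs1
    linarith
  have hlog : Real.log (2 * (X : ℝ)) ≤ 2 * Real.log X := by
    have e : 2 * Real.log X = Real.log ((X : ℝ) ^ 2) := by rw [Real.log_pow]; norm_num
    rw [e]
    apply Real.log_le_log (by linarith)
    nlinarith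
  have hlog0 : 0 ≤ Real.log (2 * (X : ℝ)) := Real.log_nonneg (by linarith)
  have hlog2 : Real.log (2 * (X : ℝ)) ^ 2 ≤ 4 * Real.log X ^ 2 := by
    calc Real.log (2 * (X : ℝ)) ^ 2 ≤ (2 * Real.log X) ^ 2 := pow_le_pow_left₀ hlog0 hlog 2
      _ = _ := by ring
  have hP : sing (2 * a) * X / 4 ≤ 4 * Real.log X ^ 2 * primeTuples (fun _ : Fin 1 => 2 * a) X := by
    refine (h7.trans hup').trans ?_
    exact mul_le_mul_of_nonneg_right hlog2 (Nat.cast_nonneg _)
  have hw := wt_le a ha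
  have hw0 : 0 ≤ wt a := by
    unfold wt
    positivity
  have hL0 : 0 < Real.log X ^ 2 := by
    have : 0 < Real.log X := by linarith
    positivity
  have hfin : 1 / 32 * wt a * (X / Real.log X ^ 2) = (wt a * X / 32) / Real.log X ^ 2 := by ring
  rw [hfin, div_le_iff₀ hL0]
  have h10 : wt a * X / 32 ≤ sing (2 * a) * X / 16 := by
    have h11 : wt a / 2 * X ≤ sing (2 * a) * X := mul_le_mul_of_nonneg_right hw hX0.le
    linarith
  linarith

lemma ev_two (U n0 : ℕ) : ∃ n1 : ℕ, ∀ n : ℕ, n1 ≤ n →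
    (n0 : ℝ) + (n : ℝ) / Real.log n ^ (U + 1) ≤ n / Real.log n ^ U := by
  obtain ⟨m1, h1⟩ := ev_log' U (2 * n0)
  obtain ⟨m2, h2⟩ := ev_L' 4
  refine ⟨m1 + m2 + 64, fun n hn => ?_⟩
  have a1 := h1 n (by omega)
  have a2 := h2 n (by omega)
  have hnr : (64 : ℝ) ≤ n := by
    have : 64 ≤ n := by omega
    exact_mod_cast this
  have hL0 : 0 < Real.log n := by linarith
  have hLU : 0 < Real.log n ^ U := by positivity
  have e1 : (n0 : ℝ) ≤ 1 / 2 * (n / Real.log n ^ U) := by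
    have e2 : √(n : ℝ) ≤ n := by
      rw [Real.sqrt_le_left (by linarith)]
      nlinarith
    have e3 : 1 / 2 * ((n : ℝ) / Real.log n ^ U) = (n / 2) / Real.log n ^ U := by ring
    rw [e3, le_div_iff₀ hLU]
    linarith
  have e7 : (n : ℝ) / Real.log n ^ (U + 1) ≤ 1 / 2 * (n / Real.log n ^ U) := by
    have e8 : (n : ℝ) / Real.log n ^ (U + 1) = (1 / Real.log n) * (n / Real.log n ^ U) := by
      rw [pow_succ]
      field_simp
    rw [e8]
    apply mul_le_mul_of_nonneg_right _ (by positivity)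
    rw [div_le_iff₀ hL0]
    linarith
  linarith

theorem pairs_low (U : ℕ) : ∃ X₀ : ℕ, ∀ X : ℕ, X₀ ≤ X →
    (((Icc 1 (X / 2)).filter (fun a => (primeTuples (fun _ : Fin 1 => 2 * a) X : ℝ) <
      1 / 32 * wt a * (X / Real.log X ^ 2))).card : ℝ) ≤ X / Real.log X ^ U := by
  classical
  obtain ⟨N0, h⟩ := ftuples_full 1 1 1 1 (U + 1) le_rfl le_rfl
  obtain ⟨n0, hnear⟩ := singZ_near (1 / 2) (by norm_num)
  obtain ⟨n1, hev⟩ := ev_two U n0
  obtain ⟨n2, hL⟩ := ev_L' 4
  refine ⟨N0 + n1 + n2 + 64, fun X hX => ?_⟩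
  have hLX := hL X (by omega)
  have hU4 : 4 ≤ Real.log X ^ (U + 1) := by
    have h1 : Real.log X ^ 1 ≤ Real.log X ^ (U + 1) := pow_le_pow_right₀ (by linarith) (by omega)
    rw [pow_one] at h1
    linarith
  obtain ⟨N, hN⟩ : ∃ N, N = X / 2 := ⟨_, rfl⟩
  have hN2 : 2 * N ≤ X := by omega
  have hN3 : X ≤ 3 * N := by omega
  have hN3r : (X : ℝ) ≤ 3 * N := by exact_mod_cast hN3
  have hmain := h X (by omega) (fun _ => N) (fun _ m => 2 * m) (fun _ => by show 1 ≤ N; omega)
    (fun _ m hm => by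
      have hm' := (mem_Icc.1 hm).2
      show 2 * m ≤ 1 * X
      omega)
    (fun _ => by
      have h1 := energyZ_one N (fun m => ((2 * m : ℕ) : ℤ)) (fun a b hab => by
        have : ((2 * a : ℕ) : ℤ) = ((2 * b : ℕ) : ℤ) := hab
        omega)
      have h2 : (Pool.Agent.H373R2.T7.energy 1 N (fun m => ((2 * m : ℕ) : ℤ)) : ℝ) ≤ N := by exact_mod_cast h1
      have h3 : (0 : ℝ) ≤ N := Nat.cast_nonneg N
      calc (Pool.Agent.H373R2.T7.energy 1 N (fun m => ((2 * m : ℕ) : ℤ)) : ℝ) * X ≤ N * (3 * N) :=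
            mul_le_mul h2 hN3r (Nat.cast_nonneg _) h3
        _ = 3 * (N : ℝ) ^ 2 := by ring
        _ ≤ Real.log X ^ 1 * (N : ℝ) ^ (2 * 1) := by
          rw [pow_one, mul_one]
          have : (0 : ℝ) ≤ (N : ℝ) ^ 2 := by positivity
          nlinarith)
  have hev' := hev X (by omega)
  refine le_trans ?_ hev'
  set E := (Fintype.piFinset (fun _ : Fin 1 => Icc 1 N)).filter (fun m : Fin 1 → ℕ =>
        ¬ ∃ S : ℝ, Filter.Tendsto (fun z => singZ (fun i => (((fun _ m => 2 * m) : Fin 1 → ℕ → ℕ) i (m i) : ℤ)) z) Filter.atTop (nhds S) ∧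
        |tupleCount (fun i => (((fun _ m => 2 * m) : Fin 1 → ℕ → ℕ) i (m i) : ℤ)) X - S * X| ≤ (X : ℝ) / Real.log X ^ (U + 1)) with hE
  have hcard : ((Icc 1 (X / 2)).filter (fun a => (primeTuples (fun _ : Fin 1 => 2 * a) X : ℝ) <
      1 / 32 * wt a * (X / Real.log X ^ 2))).card ≤ n0 + E.card := by
    have hsub : (Icc 1 (X / 2)).filter (fun a => (primeTuples (fun _ : Fin 1 => 2 * a) X : ℝ) <
      1 / 32 * wt a * (X / Real.log X ^ 2)) ⊆ range n0 ∪ E.image (fun m => m 0) := by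
      intro a ha
      rw [mem_filter, mem_Icc] at ha
      obtain ⟨⟨h1, h2⟩, h3⟩ := ha
      rw [mem_union, mem_range, mem_image]
      by_cases h4 : a < n0
      · exact Or.inl h4
      · right
        refine ⟨fun _ => a, ?_, rfl⟩
        rw [hE, mem_filter]
        refine ⟨?_, ?_⟩
        · rw [Fintype.mem_piFinset]
          intro _
          rw [mem_Icc]
          omega
        · rintro ⟨S, hS1, hS2⟩
          have hS : sing (2 * a) / 2 ≤ S := by
            apply ge_of_tendsto hS1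
            rw [Filter.eventually_atTop]
            refine ⟨⌈Real.log ((2 * a : ℕ) : ℝ) ^ 2⌉₊, fun z hz => ?_⟩
            have h5 := hnear (2 * a) (by omega) (dvd_mul_right 2 a) z (Nat.ceil_le.1 hz)
            have h6 := (abs_le.1 h5).1
            have h7 : singZ (fun _ : Fin 1 => ((2 * a : ℕ) : ℤ)) z = singZ (sh (2 * a)) z := singZ_neg (2 * a) z
            show sing (2 * a) / 2 ≤ singZ (fun _ : Fin 1 => ((2 * a : ℕ) : ℤ)) z
            rw [h7]
            linarith
          have := good_low X a (U + 1) (by omega) h1 (by omega) hU4 S hS hS2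
          linarith
    refine (card_le_card hsub).trans ((card_union_le _ _).trans ?_)
    rw [card_range]
    exact Nat.add_le_add_left card_image_le _
  have hcr : (((Icc 1 (X / 2)).filter (fun a => (primeTuples (fun _ : Fin 1 => 2 * a) X : ℝ) <
      1 / 32 * wt a * (X / Real.log X ^ 2))).card : ℝ) ≤ n0 + (E.card : ℝ) := by exact_mod_cast hcard
  refine hcr.trans ?_
  have hp : (∏ _i : Fin 1, (N : ℝ)) = N := by simp
  rw [hp] at hmain
  have hNX : (N : ℝ) / Real.log X ^ (U + 1) ≤ X / Real.log X ^ (U + 1) := by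
    have : (N : ℝ) ≤ X := by exact_mod_cast (by omega : N ≤ X)
    gcongr
  linarith

end Pool.Agent.E8helper70.AP
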