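import Pool.Agent.E8helper70.AP.Eng
import Pool.Agent.E8helper70.AP.Fh
import Pool.Agent.E8helper70.AP.HL
import Pool.Agent.Y677.RSZ.Top

/-!
# Progressions of prime pairs: the theorem for almost all differences
-/

set_option autoImplicit false

namespace Pool.Agent.E8helper70.AP

open Finset
open Pool.Agent.Y677.RSZ (rt rhoT V)

/-- the primes `p ≤ X` for which `p + h` is prime -/
def pairs (h X : ℕ) : Finset ℕ := (Icc 1 X).filter (fun p => p.Prime ∧ (p + h).Prime)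

theorem eng_all : T_ENG :=
  eng Pool.Agent.Y727.PSP.rs_all Pool.Agent.Y852.RSZ.MK.mk
    (maj FL.c1 Pool.Agent.Y328.RSZ.sel loc Pool.Agent.Y833.RSZ.CLS Pool.Agent.Y677.RSZ.mer)

theorem ratio_ge (h : ℕ) (hh : 1 ≤ h) : 1 ≤ (h : ℝ) / h.totient := by
  have h1 : (0 : ℝ) < h.totient := by exact_mod_cast Nat.totient_pos.2 (by omega)
  rw [one_le_div h1]
  exact_mod_cast Nat.totient_le h

open Classical in
theorem good_of (l k B X h : ℕ) (hk : l ≤ k) (ε : ℝ) (hε : 0 < ε) (hh : 1 ≤ h) (hX : 2 ≤ X)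
    (hlog : 0 < Real.log X)
    (hE : ∀ A : Finset ℕ, A ⊆ Ioc 0 (0 + X) →
      (∀ n ∈ A, ∀ p : ℕ, p.Prime → (p : ℝ) ≤ (X : ℝ) ^ (1 / 2 : ℝ) → ¬ (p : ℤ) ∣ Fh h (n : ℤ)) →
      ε / 128 * (X * V (Fh h) 1 X) ≤ A.card →
      ∃ a d : ℕ, 1 ≤ d ∧ (d : ℝ) ≤ Real.log X ^ B ∧ ∀ i < k, a + i * d ∈ A)
    (hlow : 1 / 64 * ((h : ℝ) / h.totient) * (X / Real.log X ^ 2) ≤ (pairs h X).card)
    (hV : V (Fh h) 1 X ≤ (h : ℝ) / h.totient / Real.log X ^ 2)
    (hs : (X : ℝ) ^ (1 / 2 : ℝ) ≤ ε / 128 * (X / Real.log X ^ 2))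
    (A : Finset ℕ) (hA : A ⊆ pairs h X) (hAc : ε * (pairs h X).card ≤ A.card) :
    ∃ a d : ℕ, 1 ≤ d ∧ (d : ℝ) ≤ Real.log X ^ B ∧ ∀ i < l, a + i * d ∈ A := by
  set A' := A.filter (fun p : ℕ => (X : ℝ) ^ (1 / 2 : ℝ) < p) with hA'
  have hr := ratio_ge h hh
  have hL2 : 0 < Real.log X ^ 2 := by positivity
  have hX0 : (0 : ℝ) < X := by exact_mod_cast (by omega : 0 < X)
  -- the small elements
  have h1 : (A.card : ℝ) ≤ A'.card + (X : ℝ) ^ (1 / 2 : ℝ) := by
    have e1 : A ⊆ A' ∪ Icc 1 ⌊(X : ℝ) ^ (1 / 2 : ℝ)⌋₊ := by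
      intro p hp
      rw [mem_union, mem_Icc, hA', mem_filter]
      rcases lt_or_ge ((X : ℝ) ^ (1 / 2 : ℝ)) (p : ℝ) with h1 | h1
      · exact Or.inl ⟨hp, h1⟩
      · right
        refine ⟨?_, Nat.le_floor h1⟩
        have hp2 := hA hp
        rw [pairs, mem_filter, mem_Icc] at hp2
        exact hp2.1.1
    have e2 : A.card ≤ A'.card + ⌊(X : ℝ) ^ (1 / 2 : ℝ)⌋₊ := by
      refine (card_le_card e1).trans ((card_union_le _ _).trans ?_)
      rw [Nat.card_Icc, Nat.add_sub_cancel]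
    have e3 : ((⌊(X : ℝ) ^ (1 / 2 : ℝ)⌋₊ : ℕ) : ℝ) ≤ (X : ℝ) ^ (1 / 2 : ℝ) := Nat.floor_le (by positivity)
    have e4 : (A.card : ℝ) ≤ A'.card + (⌊(X : ℝ) ^ (1 / 2 : ℝ)⌋₊ : ℕ) := by exact_mod_cast e2
    linarith
  have h2 : ε / 128 * ((h : ℝ) / h.totient * (X / Real.log X ^ 2)) ≤ ε / 2 * (pairs h X).card := by
    calc ε / 128 * ((h : ℝ) / h.totient * (X / Real.log X ^ 2)) =
        ε / 2 * (1 / 64 * ((h : ℝ) / h.totient) * (X / Real.log X ^ 2)) := by ring
      _ ≤ ε / 2 * (pairs h X).card := by gcongr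
  have h3 : ε / 128 * (X / Real.log X ^ 2) ≤ ε / 128 * ((h : ℝ) / h.totient * (X / Real.log X ^ 2)) := by
    have : (X : ℝ) / Real.log X ^ 2 ≤ (h : ℝ) / h.totient * (X / Real.log X ^ 2) :=
      le_mul_of_one_le_left (by positivity) hr
    gcongr
  have h4 : ε / 128 * ((h : ℝ) / h.totient * (X / Real.log X ^ 2)) ≤ A'.card := by linarith
  obtain ⟨a, d, hd1, hd2, hAP⟩ := hE A' (by
      intro p hp
      rw [hA', mem_filter] at hp
      have hp2 := hA hp.1
      rw [pairs, mem_filter, mem_Icc] at hp2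
      rw [mem_Ioc]
      omega) (by
      intro n hn p hp hpX hd
      rw [hA', mem_filter] at hn
      have hn4 := hA hn.1
      rw [pairs, mem_filter, mem_Icc] at hn4
      obtain ⟨_, hn1, hn2⟩ := hn4
      have hn3 := hn.2
      unfold Fh at hd
      have hd' : p ∣ n * (n + h) := by exact_mod_cast hd
      rcases hp.dvd_mul.1 hd' with h5 | h5
      · have h6 := (Nat.prime_dvd_prime_iff_eq hp hn1).1 h5
        rw [h6] at hpX
        linarith
      · have h6 := (Nat.prime_dvd_prime_iff_eq hp hn2).1 h5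
        rw [h6] at hpX
        push_cast at hpX
        have : (0 : ℝ) ≤ h := Nat.cast_nonneg h
        linarith) (by
      refine le_trans ?_ h4
      have e1 : (X : ℝ) * V (Fh h) 1 X ≤ X * ((h : ℝ) / h.totient / Real.log X ^ 2) := by gcongr
      calc ε / 128 * (X * V (Fh h) 1 X) ≤ ε / 128 * (X * ((h : ℝ) / h.totient / Real.log X ^ 2)) := by gcongr
        _ = _ := by ring)
  exact ⟨a, d, hd1, hd2, fun i hi => (mem_filter.1 (hAP i (by omega))).1⟩

/-- the atypical shifts are rare -/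
theorem atyp_card (X W N S : ℕ) (ε : ℝ) (hS : 2 ≤ S) (hWNX : W * N ≤ X) :
    ∃ E : Finset ℕ, (E.card : ℝ) ≤ W * N + N * (3 * X * Real.exp (4 - ε / 3 * S)) ∧
      ∀ h ∈ Icc 1 X, h ∉ E → W * N < h ∧ (∀ t, 1 ≤ t → t ≤ N → rsum S (h + W * t) ≤ ε / 3) ∧
        (∀ t, 1 ≤ t → t ≤ N → rsum S (h - W * t) ≤ ε / 3) := by
  classical
  set E1 := (Icc 1 (2 * X)).filter (fun u => ε / 3 < rsum S u) with hE1
  set E2 := (Icc 1 X).filter (fun u => ε / 3 < rsum S u) with hE2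
  refine ⟨Icc 1 (W * N) ∪ (Icc 1 N).biUnion (fun t => E1.image (fun u => u - W * t) ∪ E2.image (fun u => u + W * t)),
    ?_, ?_⟩
  · have h1 := rsum_count S (2 * X) (ε / 3) hS
    have h2 := rsum_count S X (ε / 3) hS
    rw [← hE1] at h1
    rw [← hE2] at h2
    push_cast at h1
    have h3 : (Icc 1 (W * N) ∪ (Icc 1 N).biUnion (fun t => E1.image (fun u => u - W * t) ∪
        E2.image (fun u => u + W * t))).card ≤ W * N + N * (E1.card + E2.card) := by
      refine (card_union_le _ _).trans ?_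
      rw [Nat.card_Icc, Nat.add_sub_cancel]
      apply Nat.add_le_add_left
      refine card_biUnion_le.trans ?_
      refine (sum_le_sum (g := fun _ => E1.card + E2.card) fun t _ => ?_).trans ?_
      · exact (card_union_le _ _).trans (Nat.add_le_add card_image_le card_image_le)
      · rw [sum_const, Nat.card_Icc, Nat.add_sub_cancel, smul_eq_mul]
    have h4 : ((Icc 1 (W * N) ∪ (Icc 1 N).biUnion (fun t => E1.image (fun u => u - W * t) ∪
        E2.image (fun u => u + W * t))).card : ℝ) ≤ W * N + N * (E1.card + E2.card) := by exact_mod_cast h3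
    refine h4.trans ?_
    have h5 : (E1.card : ℝ) + E2.card ≤ 3 * X * Real.exp (4 - ε / 3 * S) := by linarith
    gcongr
  · intro h hh hE
    rw [mem_Icc] at hh
    rw [mem_union, mem_Icc, mem_biUnion] at hE
    push Not at hE
    obtain ⟨h1, h2⟩ := hE
    have h3 := h1 hh.1
    refine ⟨h3, fun t ht1 ht2 => ?_, fun t ht1 ht2 => ?_⟩
    · by_contra hcon
      have hWt : W * t ≤ W * N := Nat.mul_le_mul_left _ ht2
      apply h2 t (mem_Icc.2 ⟨ht1, ht2⟩)
      rw [mem_union]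
      left
      rw [mem_image]
      refine ⟨h + W * t, ?_, by omega⟩
      rw [hE1, mem_filter, mem_Icc]
      exact ⟨by omega, not_le.1 hcon⟩
    · by_contra hcon
      have hWt : W * t ≤ W * N := Nat.mul_le_mul_left _ ht2
      apply h2 t (mem_Icc.2 ⟨ht1, ht2⟩)
      rw [mem_union]
      right
      rw [mem_image]
      refine ⟨h - W * t, ?_, by omega⟩
      rw [hE2, mem_filter, mem_Icc]
      exact ⟨by omega, not_le.1 hcon⟩

theorem exp_four : Real.exp 4 ≤ 55 := by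
  have h1 : Real.exp 4 = Real.exp 1 ^ 4 := by
    rw [← Real.exp_nat_mul]; norm_num
  have h2 := Real.exp_one_lt_d9
  have h3 := Real.exp_pos 1
  rw [h1]
  calc Real.exp 1 ^ 4 ≤ 2.7182818286 ^ 4 := pow_le_pow_left₀ h3.le h2.le 4
    _ ≤ 55 := by norm_num

open Classical in
theorem main (l U : ℕ) (ε : ℝ) (hε : 0 < ε) : ∃ B X₀ : ℕ, ∀ X : ℕ, X₀ ≤ X →
    (((Icc 1 X).filter (fun h : ℕ => Even h ∧
      ¬ (1 / 64 * ((h : ℝ) / h.totient) * (X / Real.log X ^ 2) ≤ (pairs h X).card ∧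
        ∀ A ⊆ pairs h X, ε * (pairs h X).card ≤ A.card →
          ∃ a d : ℕ, 1 ≤ d ∧ (d : ℝ) ≤ Real.log X ^ B ∧ ∀ i < l, a + i * d ∈ A))).card : ℝ) ≤
      X / Real.log X ^ U := by
  obtain ⟨k, hk⟩ : ∃ k, k = max l 2 := ⟨_, rfl⟩
  obtain ⟨ε₀, hε₀, hT⟩ := eng_all k 3 (1 / 2) (ε / 128) (by omega) (by norm_num) (by positivity)
  obtain ⟨T, hTd⟩ : ∃ T : ℕ, T = ⌈3 * ((U : ℝ) + 3) / ε₀⌉₊ := ⟨_, rfl⟩
  have hTge : 3 * ((U : ℝ) + 3) / ε₀ ≤ T := by rw [hTd]; exact Nat.le_ceil _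
  have hU0 : (0 : ℝ) ≤ U := Nat.cast_nonneg U
  have hTε : (U : ℝ) + 3 ≤ ε₀ / 3 * T := by
    rw [div_le_iff₀ hε₀] at hTge
    linarith
  have hT1 : 1 ≤ T := by
    have h1 : (0 : ℝ) < T := lt_of_lt_of_le (by positivity) hTge
    exact_mod_cast h1
  obtain ⟨B, H₀, hB⟩ := hT T
  obtain ⟨X₁, hX₁⟩ := pairs_low (U + 1)
  have hlogt : Filter.Tendsto (fun X : ℕ => Real.log X) Filter.atTop Filter.atTop :=
    Real.tendsto_log_atTop.comp tendsto_natCast_atTop_atTop
  have hmer := Pool.Agent.H305R2.mertens_three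
  have hmer1 : ∀ᶠ X : ℕ in Filter.atTop, (1 : ℝ) < (∏ p ∈ (Finset.Icc 1 X).filter Nat.Prime,
      (1 - (p : ℝ)⁻¹)⁻¹) / Real.log X := by
    apply hmer.eventually_const_lt
    have : (0 : ℝ) < Real.eulerMascheroniConstant := by
      have := Real.one_half_lt_eulerMascheroniConstant
      linarith
    exact Real.one_lt_exp_iff.2 this
  obtain ⟨X₂, hX₂⟩ := Filter.eventually_atTop.1 (((hlogt.eventually_ge_atTop (Real.exp 2)).and
    (hlogt.eventually_ge_atTop 165)).and ((Pool.Agent.Y677.RSZ.ev_log (B + U + 1) 1 1 one_pos).and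
      ((Pool.Agent.Y677.RSZ.ev_log 2 (128 / ε) (1 / 2) (by norm_num)).and hmer1)))
  refine ⟨B, max (max H₀ X₁) (max X₂ 2), fun X hX => ?_⟩
  have b1 : H₀ ≤ X := le_trans (le_trans (le_max_left _ _) (le_max_left _ _)) hX
  have b2 : X₁ ≤ X := le_trans (le_trans (le_max_right _ _) (le_max_left _ _)) hX
  have b3 : X₂ ≤ X := le_trans (le_trans (le_max_left _ _) (le_max_right _ _)) hX
  have b4 : 2 ≤ X := le_trans (le_trans (le_max_right _ _) (le_max_right _ _)) hX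
  obtain ⟨⟨c1, c2⟩, c3, c4, c5⟩ := hX₂ X b3
  obtain ⟨W, N, S, hW1, hNl, hN1, hWN, hTS, hWS, hEng⟩ := hB X b1
  obtain ⟨L, hL⟩ : ∃ L, L = Real.log X := ⟨_, rfl⟩
  rw [← hL] at c1 c2 c3 c4 c5 hNl hWN ⊢
  have hL0 : 0 < L := by linarith
  have hL1 : 1 ≤ L := by linarith
  have hX0 : (0 : ℝ) < X := by exact_mod_cast (by omega : 0 < X)
  rw [one_mul, Real.rpow_one] at c3
  have hN0 : (0 : ℝ) < N := by linarith
  have hlogN : 2 ≤ Real.log N := by
    rw [Real.le_log_iff_exp_le hN0]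
    linarith
  have hT1r : (1 : ℝ) ≤ T := by exact_mod_cast hT1
  have hSr : (2 : ℝ) ≤ S := by
    refine le_trans ?_ hTS
    nlinarith
  have hS2 : 2 ≤ S := by exact_mod_cast hSr
  have hS0 : (0 : ℝ) < S := by linarith
  -- `W N` is small
  have hWNX : (W : ℝ) * N ≤ X / L ^ (U + 1) := by
    rw [le_div_iff₀ (by positivity)]
    calc (W : ℝ) * N * L ^ (U + 1) ≤ L ^ B * L ^ (U + 1) := by gcongr
      _ = L ^ (B + U + 1) := by rw [← pow_add]; rfl
      _ ≤ X := c3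
  have hWNX' : W * N ≤ X := by
    have h1 : (X : ℝ) / L ^ (U + 1) ≤ X := div_le_self hX0.le (one_le_pow₀ hL1)
    have h2 : ((W * N : ℕ) : ℝ) ≤ X := by
      push_cast
      linarith
    exact_mod_cast h2
  obtain ⟨E, hEc, hE⟩ := atyp_card X W N S ε₀ hS2 hWNX'
  -- the size of `E`
  have hexp : (N : ℝ) * (3 * X * Real.exp (4 - ε₀ / 3 * S)) ≤ X / L ^ (U + 1) := by
    have e1 : ((U + 3 : ℕ) : ℝ) * Real.log N ≤ ε₀ / 3 * S := by
      push_cast
      calc ((U : ℝ) + 3) * Real.log N ≤ (ε₀ / 3 * T) * Real.log N := by gcongr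
        _ = ε₀ / 3 * (T * Real.log N) := by ring
        _ ≤ ε₀ / 3 * S := by gcongr
    have e2 : Real.exp (4 - ε₀ / 3 * S) ≤ 55 / (N : ℝ) ^ (U + 3) := by
      have e3 : Real.exp (4 - ε₀ / 3 * S) ≤ Real.exp (4 - ((U + 3 : ℕ) : ℝ) * Real.log N) :=
        Real.exp_le_exp.2 (by linarith)
      refine e3.trans ?_
      rw [Real.exp_sub, Real.exp_nat_mul, Real.exp_log hN0]
      have := exp_four
      gcongr
    calc (N : ℝ) * (3 * X * Real.exp (4 - ε₀ / 3 * S)) ≤ N * (3 * X * (55 / (N : ℝ) ^ (U + 3))) := by gcongr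
      _ = 165 * X / (N : ℝ) ^ (U + 2) := by
        rw [show U + 3 = (U + 2) + 1 by ring, pow_succ]
        field_simp
        norm_num
      _ ≤ L * X / L ^ (U + 2) := by
        have : L ^ (U + 2) ≤ (N : ℝ) ^ (U + 2) := pow_le_pow_left₀ hL0.le hNl _
        gcongr
      _ = X / L ^ (U + 1) := by
        rw [show U + 2 = (U + 1) + 1 by ring, pow_succ L (U + 1)]
        field_simp
  have hEc2 : (E.card : ℝ) ≤ 2 * (X / L ^ (U + 1)) := by linarith
  -- the exceptional set of the lower bound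
  have hlowc := hX₁ X b2
  set E1 := (Icc 1 (X / 2)).filter (fun a => (Pool.Agent.H560R3.GB.primeTuples (fun _ : Fin 1 => 2 * a) X : ℝ) <
      1 / 32 * Pool.Agent.R521.GG.wt a * (X / Real.log X ^ 2)) with hE1
  rw [← hL] at hlowc
  have hsub : (Icc 1 X).filter (fun h : ℕ => Even h ∧
      ¬ (1 / 64 * ((h : ℝ) / h.totient) * (X / L ^ 2) ≤ (pairs h X).card ∧
        ∀ A ⊆ pairs h X, ε * (pairs h X).card ≤ A.card →
          ∃ a d : ℕ, 1 ≤ d ∧ (d : ℝ) ≤ L ^ B ∧ ∀ i < l, a + i * d ∈ A)) ⊆ E ∪ E1.image (fun a => 2 * a) := by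
    intro h hh
    rw [mem_filter] at hh
    obtain ⟨hhX, hev, hbad⟩ := hh
    by_contra hcon
    rw [mem_union, mem_image] at hcon
    push Not at hcon
    obtain ⟨d1, d2⟩ := hcon
    apply hbad
    have hhX' := mem_Icc.1 hhX
    obtain ⟨t1, t2, t3⟩ := hE h hhX d1
    obtain ⟨a, ha⟩ := hev
    have ha1 : 1 ≤ a := by omega
    have ha2 : 2 * a = h := by omega
    -- the lower bound
    have hlow : 1 / 64 * ((h : ℝ) / h.totient) * (X / L ^ 2) ≤ (pairs h X).card := by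
      have e1 : a ∉ E1 := fun h1 => d2 a h1 ha2
      rw [hE1, mem_filter, mem_Icc] at e1
      have e2 : ¬ ((Pool.Agent.H560R3.GB.primeTuples (fun _ : Fin 1 => 2 * a) X : ℝ) <
        1 / 32 * Pool.Agent.R521.GG.wt a * (X / Real.log X ^ 2)) := fun h1 => e1 ⟨by omega, h1⟩
      have e3 := not_lt.1 e2
      rw [← hL] at e3
      have e4 : Pool.Agent.H560R3.GB.primeTuples (fun _ : Fin 1 => 2 * a) X = (pairs h X).card := by
        unfold Pool.Agent.H560R3.GB.primeTuples pairs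
        congr 1
        apply filter_congr
        intro p _
        rw [ha2]
        simp
      rw [e4] at e3
      refine le_trans ?_ e3
      have e5 : (h : ℝ) / h.totient ≤ 2 * Pool.Agent.R521.GG.wt a := by
        unfold Pool.Agent.R521.GG.wt
        have f1 : a.totient ≤ h.totient := by
          apply Nat.le_of_dvd (Nat.totient_pos.2 (by omega))
          apply Nat.totient_dvd_of_dvd
          exact ⟨2, by omega⟩
        have f2 : (0 : ℝ) < a.totient := by exact_mod_cast Nat.totient_pos.2 (by omega)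
        have f3 : (a.totient : ℝ) ≤ h.totient := by exact_mod_cast f1
        have f4 : (h : ℝ) = 2 * a := by rw [← ha2]; push_cast; ring
        rw [f4, mul_div_assoc]
        gcongr
      have e6 : 0 ≤ (X : ℝ) / L ^ 2 := by positivity
      calc 1 / 64 * ((h : ℝ) / h.totient) * (X / L ^ 2) ≤
          1 / 64 * (2 * Pool.Agent.R521.GG.wt a) * (X / L ^ 2) := by gcongr
        _ = _ := by ring
    refine ⟨hlow, ?_⟩
    have hCo : Co (Fh h) W N S (X ^ 3) ε₀ := by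
      refine co_Fh h X W N S ε₀ hW1 hWS t1 hhX'.2 ?_ t2 t3
      intro t ht1 ht2
      refine (rsum_small S t ht1 (by omega)).trans ?_
      have f1 : Real.log t ≤ Real.log N := Real.log_le_log (by exact_mod_cast ht1) (by exact_mod_cast ht2)
      rw [div_le_iff₀ hS0]
      have f2 : 3 * Real.log N ≤ ε₀ / 3 * S := by
        calc 3 * Real.log N ≤ ((U : ℝ) + 3) * Real.log N := by
              apply mul_le_mul_of_nonneg_right _ (by linarith)
              linarith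
          _ ≤ (ε₀ / 3 * T) * Real.log N := by gcongr
          _ = ε₀ / 3 * (T * Real.log N) := by ring
          _ ≤ ε₀ / 3 * S := by gcongr
      linarith
    rw [hL] at hlow ⊢
    refine good_of l k B X h (by omega) ε hε hhX'.1 b4 (by rw [← hL]; exact hL0) ?_ hlow ?_ ?_
    · intro A hA1 hA2 hA3
      refine hEng (Fh h) 0 A (sy_Fh h ⟨a, ha⟩) hCo ?_ hA1 hA2 hA3
      intro n hn
      rw [mem_Ioc, zero_add] at hn
      have hn1 : (1 : ℤ) ≤ n := by exact_mod_cast hn.1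
      have hn2 : (n : ℤ) ≤ X := by exact_mod_cast hn.2
      have hh2 : (h : ℤ) ≤ X := by exact_mod_cast hhX'.2
      have hh0 : (0 : ℤ) ≤ h := by positivity
      have hX2 : (2 : ℤ) ≤ X := by exact_mod_cast b4
      unfold Fh
      refine ⟨by positivity, ?_⟩
      rw [abs_of_nonneg (by positivity)]
      calc (n : ℤ) * (n + h) ≤ X * (X + X) := by gcongr
        _ = 2 * X ^ 2 := by ring
        _ ≤ X * X ^ 2 := by gcongr
        _ = X ^ 3 := by ring
    · apply V_up h X hhX'.1 hhX'.2 (by rw [← hL]; exact hL1)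
      rw [lt_div_iff₀ hL0, one_mul] at c5
      rw [← hL]
      simp only [one_div]
      exact c5.le
    · rw [← hL]
      have e1 : (X : ℝ) = (X : ℝ) ^ (1 / 2 : ℝ) * (X : ℝ) ^ (1 / 2 : ℝ) := by
        rw [← Real.rpow_add hX0]; norm_num
      have e2 : 0 < (X : ℝ) ^ (1 / 2 : ℝ) := by positivity
      rw [mul_div_assoc', le_div_iff₀ (by positivity)]
      have e3 : L ^ 2 ≤ ε / 128 * (X : ℝ) ^ (1 / 2 : ℝ) := by
        calc L ^ 2 = ε / 128 * (128 / ε * L ^ 2) := by field_simp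
          _ ≤ ε / 128 * (X : ℝ) ^ (1 / 2 : ℝ) := by gcongr
      calc (X : ℝ) ^ (1 / 2 : ℝ) * L ^ 2 ≤ (X : ℝ) ^ (1 / 2 : ℝ) * (ε / 128 * (X : ℝ) ^ (1 / 2 : ℝ)) := by gcongr
        _ = ε / 128 * ((X : ℝ) ^ (1 / 2 : ℝ) * (X : ℝ) ^ (1 / 2 : ℝ)) := by ring
        _ = ε / 128 * X := by rw [← e1]
  have h1 := card_le_card hsub
  have h2 := h1.trans ((card_union_le _ _).trans (Nat.add_le_add_left card_image_le _))
  have h3 : (((Icc 1 X).filter (fun h : ℕ => Even h ∧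
      ¬ (1 / 64 * ((h : ℝ) / h.totient) * (X / L ^ 2) ≤ (pairs h X).card ∧
        ∀ A ⊆ pairs h X, ε * (pairs h X).card ≤ A.card →
          ∃ a d : ℕ, 1 ≤ d ∧ (d : ℝ) ≤ L ^ B ∧ ∀ i < l, a + i * d ∈ A))).card : ℝ) ≤ E.card + E1.card := by
    exact_mod_cast h2
  refine h3.trans ?_
  have h4 : 3 * ((X : ℝ) / L ^ (U + 1)) ≤ X / L ^ U := by
    have e : (X : ℝ) / L ^ (U + 1) = (1 / L) * (X / L ^ U) := by
      rw [pow_succ]
      field_simp
    rw [e, ← mul_assoc]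
    apply mul_le_of_le_one_left (by positivity)
    rw [mul_one_div, div_le_one hL0]
    linarith
  linarith

end Pool.Agent.E8helper70.AP
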