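import Pool.Agent.E8helper70.AP.Mj
import Pool.Agent.E8helper70.AP.C1
import Pool.Agent.E8helper70.AP.LOC
import Pool.Agent.Y814.RSZ.Maj

/-!
# Progressions of prime pairs: the majorant (after `Pool/Agent/Y814/RSZ/Maj.lean`)
-/

set_option autoImplicit false

open Finset Filter

namespace Pool.Agent.E8helper70.AP

open Pool.Agent.TH423.SH (PS PIj prc)
open Pool.Agent.Y917.PSP (TT Dl wt mem_TT Dl_pos div_bound final_real aux3 aux6 aux9 aux11 aux13 pow_eq_exp ev_exp_sqrt)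
open Pool.Agent.Y814.RSZ (mem_PS fac_pos fac_le_one V_split nuM sum_nuM aux_e1 aux_e2 aux_z aux_R aux_k aux_v asym exp_small
  ds ds_eq qfr_eq rs_bound omega_bound cn cnt_cop)
open Pool.Agent.Y677.RSZ (rt rhoT V rs qfr PR S_SEL S_CLS S_MER)

theorem V_pos {g : ℕ} {F : ℤ → ℤ} (hS : Sy g F) (W z : ℕ) : 0 < V F W z := by
  unfold V
  apply prod_pos
  intro p hp
  rw [mem_PS] at hp
  exact fac_pos _ _ (hS.root p hp.2.1).2

theorem PR_pos {g : ℕ} {F : ℤ → ℤ} (hS : Sy g F) (z R : ℕ) : 0 < PR (rt F) z R := by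
  unfold PR
  apply prod_pos
  intro p hp
  rw [mem_filter] at hp
  exact fac_pos _ _ (hS.root p hp.2).2

/-- a lower bound for a partial product -/
theorem prod_low {g : ℕ} {F : ℤ → ℤ} (hS : Sy g F) (R : ℕ) (S : Finset ℕ)
    (hsub : S ⊆ PS (2 * (g + 1)).factorial R) :
    PIj (2 * (g + 1)).factorial R g ≤ ∏ p ∈ S, (1 - (rt F p : ℝ) / p) := by
  have hf : ∀ p ∈ PS (2 * (g + 1)).factorial R, 0 < 1 - (g : ℝ) / (p : ℝ) := by
    intro p hp
    rw [mem_PS] at hp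
    apply fac_pos
    by_contra h
    exact hp.2.2 ((Nat.Prime.dvd_factorial hp.2.1).2 (by omega))
  unfold PIj
  rw [← prod_sdiff hsub]
  have h1 : ∏ p ∈ PS (2 * (g + 1)).factorial R \ S, (1 - (g : ℝ) / (p : ℝ)) ≤ 1 :=
    prod_le_one (fun p hp => (hf p (mem_sdiff.1 hp).1).le) (fun p _ => fac_le_one _ _)
  have h2 : ∏ p ∈ S, (1 - (g : ℝ) / (p : ℝ)) ≤ ∏ p ∈ S, (1 - (rt F p : ℝ) / p) := by
    apply Finset.prod_le_prod
    · intro p hp
      exact (hf p (hsub hp)).le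
    · intro p hp
      have hp2 := (mem_PS.1 (hsub hp)).2.1
      have : (rt F p : ℝ) ≤ g := by exact_mod_cast (hS.root p hp2).1
      have hp0 : (0 : ℝ) < p := by exact_mod_cast hp2.pos
      gcongr
  have h3 : 0 ≤ ∏ p ∈ S, (1 - (g : ℝ) / (p : ℝ)) := prod_nonneg fun p hp => (hf p (hsub hp)).le
  exact (mul_le_of_le_one_left h3 h1).trans h2

theorem V_low {g : ℕ} {F : ℤ → ℤ} (hS : Sy g F) (W z : ℕ)
    (hW : ∀ p : ℕ, p.Prime → p ≤ 2 * (g + 1) → p ∣ W) :
    PIj (2 * (g + 1)).factorial z g ≤ V F W z := by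
  unfold V
  apply prod_low hS
  intro p hp
  rw [mem_PS] at hp ⊢
  refine ⟨hp.1, hp.2.1, fun h => hp.2.2 (hW p hp.2.1 ((Nat.Prime.dvd_factorial hp.2.1).1 h))⟩

theorem PR_low {g : ℕ} {F : ℤ → ℤ} (hS : Sy g F) (z R : ℕ) (hz : 2 * (g + 1) ≤ z) :
    PIj (2 * (g + 1)).factorial R g ≤ PR (rt F) z R := by
  unfold PR
  apply prod_low hS
  intro p hp
  rw [mem_filter, mem_Ioc] at hp
  rw [mem_PS]
  refine ⟨⟨by omega, hp.1.2⟩, hp.2, fun h => ?_⟩
  have := (Nat.Prime.dvd_factorial hp.2).1 h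
  omega

theorem PR_mer {g : ℕ} {F : ℤ → ℤ} (hS : Sy g F) (R H : ℕ) (hR : 2 * g + 2 ≤ R) (c : ℝ)
    (h : c ≤ ∏ p ∈ (Ioc R H).filter Nat.Prime, (1 - (g : ℝ) / p)) : c ≤ PR (rt F) R H := by
  refine h.trans ?_
  unfold PR
  apply Finset.prod_le_prod
  · intro p hp
    rw [mem_filter, mem_Ioc] at hp
    exact (fac_pos g p (by omega)).le
  · intro p hp
    rw [mem_filter] at hp
    have : (rt F p : ℝ) ≤ g := by exact_mod_cast (hS.root p hp.2).1
    have hp0 : (0 : ℝ) < p := by exact_mod_cast hp.2.pos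
    gcongr

theorem maj (h1 : T_C1) (h2 : S_SEL) (h3 : T_LOC) (h4 : S_CLS) (h5 : S_MER) : T_MAJ := by
  classical
  intro g M₁ δ hδ
  obtain ⟨C, hC1, hC⟩ := h1
  obtain ⟨CS, hCS, hSel⟩ := h2 g
  obtain ⟨M, hM⟩ : ∃ M, M = max M₁ 1 := ⟨_, rfl⟩
  have hM1 : 1 ≤ M := hM ▸ le_max_right _ _
  have hMM : M₁ ≤ M := hM ▸ le_max_left _ _
  have hMr : (1 : ℝ) ≤ M := by exact_mod_cast hM1
  have hMr0 : (0 : ℝ) < M := by linarith
  have hCr1 : (1 : ℝ) ≤ C := by exact_mod_cast hC1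
  have hCr : (0 : ℝ) < C := by linarith
  have hg0 : (0 : ℝ) ≤ g := Nat.cast_nonneg g
  obtain ⟨θ, hθd⟩ : ∃ θ, θ = min (1 / (64 * (C : ℝ) * M * (g + 1))) (δ / 2) := ⟨_, rfl⟩
  have hθ0 : 0 < θ := by rw [hθd]; exact lt_min (by positivity) (by positivity)
  have hθ1 : θ ≤ 1 / (64 * (C : ℝ) * M * (g + 1)) := hθd ▸ min_le_left _ _
  have hθ2 : θ ≤ δ / 2 := hθd ▸ min_le_right _ _
  have hθ3 : θ ≤ 1 := by
    refine hθ1.trans ?_
    rw [div_le_one (by positivity)]
    have e1 : 1 ≤ (C : ℝ) * M := by nlinarith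
    have e2 : 1 ≤ (C : ℝ) * M * (g + 1) := by nlinarith
    linarith
  obtain ⟨cM, hcM, hMer⟩ := h5 g (max 1 (2 / θ)) (le_max_left _ _)
  refine ⟨cM / CS, by positivity, fun η₀ hη₀ => ?_⟩
  obtain ⟨η, hηd⟩ : ∃ η, η = min η₀ 1 := ⟨_, rfl⟩
  have hη1 : η ≤ 1 := hηd ▸ min_le_right _ _
  have hηη : η ≤ η₀ := hηd ▸ min_le_left _ _
  have hη : 0 < η := by rw [hηd]; exact lt_min hη₀ one_pos
  choose s₀ ε₀ hε₀ hs₀ using fun m => h3 g m (η / 4) (by positivity)
  obtain ⟨s1, hs1⟩ : ∃ s1, s1 = ∑ m ∈ range (M + 1), s₀ m := ⟨_, rfl⟩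
  have hs1m : ∀ m, m ≤ M → s₀ m ≤ s1 := by
    intro m hm
    rw [hs1]
    exact single_le_sum (f := fun m => s₀ m) (fun _ _ => Nat.zero_le _) (mem_range.2 (by omega))
  obtain ⟨ε₁, hε₁, hε₁m⟩ : ∃ ε₁ : ℝ, 0 < ε₁ ∧ ∀ m, m ≤ M → ε₁ ≤ ε₀ m := by
    obtain ⟨i, hi, hmin⟩ := Finset.exists_min_image (range (M + 1)) ε₀ ⟨0, mem_range.2 (by omega)⟩
    exact ⟨ε₀ i, hε₀ i, fun m hm => hmin m (mem_range.2 (by omega))⟩
  obtain ⟨B1, R1, hR1⟩ := prc g (2 * (g + 1)).factorial (Nat.factorial_pos _)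
    (fun p hp hpl => (Nat.Prime.dvd_factorial hp).2 hpl)
  obtain ⟨A1, hA1⟩ : ∃ A1 : ℕ, A1 = (2 * (4 + B1) + 1) * (64 * C * g * M) := ⟨_, rfl⟩
  refine ⟨(2 * (4 + B1) + 1) * (64 * C * g * M) + 2 * B1,
    max s1 (C * (g * M + 1) + 2 * (g + 1)), ε₁, hε₁, fun B' => ?_⟩
  have hev := (Real.tendsto_log_atTop.comp tendsto_natCast_atTop_atTop).eventually
    ((asym M C g B1 B' (R1 + (2 * g + 2)) hM1 hC1 θ (η / 2) hθ0 (by positivity)).and
      (ev_exp_sqrt (A1 * M + 1 + 2 * B1 * M) (2 * (M : ℝ) ^ 2 * (g : ℝ) ^ 2 * (16 / η))))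
  obtain ⟨X₀, hX₀⟩ := eventually_atTop.1 hev
  refine ⟨max X₀ 2, fun F Y H W N S hSys hH hF hW1 hN1 hWH hNH hs hps hCo => ?_⟩
  obtain ⟨⟨b, hb1, hb2, hb3, hb4, hb5, hb6, hb7, hb8, hb9, hb10, hb11⟩, hb12⟩ :=
    hX₀ H ((le_max_left _ _).trans hH)
  simp only [Function.comp] at hb3 hb4 hb5 hb6 hb7 hb8 hb9 hb10 hb11 hb12
  obtain ⟨l, hl⟩ : ∃ l, l = Real.log H := ⟨_, rfl⟩
  rw [← hl] at hb3 hb4 hb5 hb6 hb7 hb8 hb9 hb10 hb11 hb12 hWH hNH ⊢
  have hH2 : 2 ≤ H := (le_max_right _ _).trans hH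
  have hH0 : (0 : ℝ) < H := by
    have : 0 < H := by omega
    exact_mod_cast this
  have hHe : Real.exp l = H := by rw [hl, Real.exp_log hH0]
  have hl0 : 0 < l := by linarith
  have hl1 : 1 ≤ l := by linarith
  obtain ⟨b₀, hb₀⟩ : ∃ b₀ : ℕ, b₀ = 2 * M * b := ⟨_, rfl⟩
  rw [← hb₀] at hb3 hb5 hb11
  have hbpos : 0 < b := by
    have h1 : (0 : ℝ) < b := lt_of_lt_of_le (by positivity) hb2
    exact_mod_cast h1
  have hbb₀ : b ≤ b₀ := by
    rw [hb₀]
    exact Nat.le_mul_of_pos_left b (by omega)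
  have hb0 : 0 < b₀ := by omega
  have hbr : (0 : ℝ) < b₀ := by exact_mod_cast hb0
  have hbbr : (b : ℝ) ≤ b₀ := by exact_mod_cast hbb₀
  have hsq0 : 0 < Real.sqrt l := Real.sqrt_pos.2 hl0
  have hsq1 : 1 ≤ Real.sqrt l := Real.one_le_sqrt.2 (by linarith)
  have hlog2 : 0.6931471803 < Real.log 2 := Real.log_two_gt_d9
  have hlog20 : 0 < Real.log 2 := by linarith
  -- the level `z`
  have hy1 : 1 ≤ l / (8 * C * b₀ * Real.log 2) := aux9 C b₀ _ l hCr hbr hsq1 hb3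
  obtain ⟨J, hJ1, hJ2⟩ := exists_nat_pow_near hy1 (by norm_num : (1 : ℝ) < 2)
  rw [le_div_iff₀ (by positivity)] at hJ1
  rw [div_lt_iff₀ (by positivity)] at hJ2
  obtain ⟨z, hz⟩ : ∃ z : ℕ, z = 2 ^ 2 ^ J := ⟨_, rfl⟩
  have hzr : (z : ℝ) = (2 : ℝ) ^ 2 ^ J := by rw [hz]; push_cast; rfl
  have hlz : Real.log z = 2 ^ J * Real.log 2 := by
    rw [hzr, Real.log_pow]; push_cast; rfl
  have hz2 : 2 ≤ z := by
    rw [hz]
    calc 2 = 2 ^ 1 := rfl
      _ ≤ 2 ^ 2 ^ J := Nat.pow_le_pow_right (by norm_num) Nat.one_le_two_pow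
  have hz0 : (0 : ℝ) < z := by
    have : 0 < z := by omega
    exact_mod_cast this
  have hz1' : 8 * (C : ℝ) * b₀ * Real.log z ≤ l := by rw [hlz]; linarith
  have hz2' : l < 16 * (C : ℝ) * b₀ * Real.log z := by
    rw [hlz]
    rw [pow_succ] at hJ2
    linarith
  have hlz0 : 0 < Real.log z := by rw [hlz]; positivity
  have hsz : Real.sqrt l < Real.log z := aux11 C b₀ _ _ l hCr hbr hb3 hz2'
  have hez : Real.exp (Real.sqrt l) < z := by
    rw [← Real.exp_log hz0]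
    exact Real.exp_lt_exp.2 hsz
  have hlzl : Real.log z ≤ θ * l / 2 := aux_z θ b _ l C b₀ hCr1 hb2 hθ0 hbbr hlz0.le hz1'
  have hR1z : R1 + (2 * g + 2) ≤ z := by
    have : ((R1 + (2 * g + 2) : ℕ) : ℝ) ≤ z := hb8.trans hez.le
    exact_mod_cast this
  -- the level `R`
  obtain ⟨R, hR⟩ : ∃ R : ℕ, R = ⌊Real.exp (θ * l)⌋₊ := ⟨_, rfl⟩
  have hRle : (R : ℝ) ≤ Real.exp (θ * l) := by
    rw [hR]
    exact Nat.floor_le (Real.exp_pos _).le
  have hRge : Real.exp (θ * l / 2) ≤ R := by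
    have e1 : Real.exp (θ * l) < (R : ℝ) + 1 := by rw [hR]; exact Nat.lt_floor_add_one _
    have e2 : θ * l = θ * l / 2 + θ * l / 2 := by ring
    rw [e2, Real.exp_add] at e1
    refine aux3 _ _ e1 ?_
    have := Real.add_one_le_exp (θ * l / 2)
    linarith
  have hzR : z ≤ R := by
    have : (z : ℝ) ≤ R := by
      rw [← Real.exp_log hz0]
      exact (Real.exp_le_exp.2 hlzl).trans hRge
    exact_mod_cast this
  have hR0 : (0 : ℝ) < R := lt_of_lt_of_le (Real.exp_pos _) hRge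
  have hlR1 : θ * l / 2 ≤ Real.log R := by
    rw [Real.le_log_iff_exp_le hR0]
    exact hRge
  have hlR2 : Real.log R ≤ θ * l := by
    rw [Real.log_le_iff_le_exp hR0]
    exact hRle
  have hθl : θ * l ≤ l := by
    calc θ * l ≤ 1 * l := by gcongr
      _ = l := one_mul l
  have hlR3 : Real.log R ≤ l := hlR2.trans hθl
  have hlR0 : 0 < Real.log R := lt_of_lt_of_le (by positivity) hlR1
  have hRH : R ≤ H := by
    have : (R : ℝ) ≤ H := by
      rw [← hHe]
      exact hRle.trans (Real.exp_le_exp.2 hθl)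
    exact_mod_cast this
  have hRδ : (R : ℝ) ≤ (H : ℝ) ^ δ := by
    rw [Real.rpow_def_of_pos hH0, ← hl]
    refine hRle.trans (Real.exp_le_exp.2 ?_)
    have : θ * l ≤ δ * l := by
      gcongr
      linarith
    linarith
  -- the modulus
  have hWz : W ≤ z := by
    have e1 : l ^ B' ≤ l ^ (2 * B' * (g + 1)) := pow_le_pow_right₀ hl1 (aux_e1 B' g)
    have : (W : ℝ) ≤ z := hWH.trans (e1.trans (hb4.trans hez.le))
    exact_mod_cast this
  have hs1s : s1 ≤ S := (le_max_left _ _).trans hs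
  have hs2s : C * (g * M + 1) + 2 * (g + 1) ≤ S := (le_max_right _ _).trans hs
  have hWp : ∀ p : ℕ, p.Prime → p ≤ C * (g * M + 1) + 2 * (g + 1) → p ∣ W := by
    intro p hp hpl
    exact hps p hp (hpl.trans hs2s)
  -- the weights
  obtain ⟨lam, hlam1, hlamb, hsupp, hGlo, hGup⟩ := hSel (rt F) z R (by omega) hzR
    (fun p hp => (hSys.root p hp).1)
  obtain ⟨G, hG⟩ : ∃ G, G = qfr (rt F) R lam := ⟨_, rfl⟩
  rw [← hG] at hGup hGlo
  have hPR0 : 0 < PR (rt F) z R := PR_pos hSys z R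
  have hG0 : 0 < G := lt_of_lt_of_le hPR0 hGlo
  obtain ⟨Vz, hV⟩ : ∃ Vz, Vz = V F W z := ⟨_, rfl⟩
  have hV0 : 0 < Vz := hV ▸ V_pos hSys W z
  have hVG0 : 0 < Vz * G := by positivity
  have hVlow : 1 / Real.log z ^ B1 ≤ Vz := by
    rw [hV]
    exact (hR1 z (by omega)).trans (V_low hSys W z (fun p hp hpl => hWp p hp (by omega)))
  have hGlow : 1 / Real.log R ^ B1 ≤ G :=
    (hR1 R (by omega)).trans ((PR_low hSys z R (by omega)).trans hGlo)
  have hlz2 : Real.log z ≤ l := hlzl.trans (by linarith)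
  have hVinv : 1 / Vz ≤ l ^ B1 := by
    have e1 : 1 / Vz ≤ Real.log z ^ B1 := aux13 Vz _ B1 hV0 hlz0 hVlow
    exact e1.trans (pow_le_pow_left₀ hlz0.le hlz2 B1)
  have hGinv : 1 / G ≤ l ^ B1 := by
    have e1 : 1 / G ≤ Real.log R ^ B1 := aux13 G _ B1 hG0 hlR0 hGlow
    exact e1.trans (pow_le_pow_left₀ hlR0.le hlR3 B1)
  have hVGinv : 1 / (Vz * G) ≤ l ^ (2 * B1) := by
    have e1 : 1 / (Vz * G) = (1 / Vz) * (1 / G) := by rw [one_div_mul_one_div]
    rw [e1, two_mul, pow_add]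
    have e3 : 0 ≤ 1 / G := by positivity
    gcongr
  have hsupp' : ∀ d, lam d ≠ 0 → 1 ≤ d ∧ d ≤ R ∧ ∀ p : ℕ, p.Prime → p ∣ d → z < p := by
    intro d hd
    have := hsupp d hd
    exact ⟨this.1, this.2.1, this.2.2.2⟩
  have hpt : ∀ lam' : ℕ → ℝ, (∀ d, lam' d ≠ 0 → lam d ≠ 0) → (∀ d, |lam' d| ≤ 1) →
      ∀ n ∈ Ioc Y (Y + H), ds R lam' (F (n : ℤ)) ^ 2 ≤ l ^ A1 := by
    intro lam' hlam' hlamb' n hn
    obtain ⟨hFn0, hFn⟩ := hF n hn
    rw [ds_eq R lam' (fun d hd => ⟨(hsupp d (hlam' d hd)).1, (hsupp d (hlam' d hd)).2.1⟩) _ hFn0]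
    obtain ⟨k, hk1, hk2⟩ := div_bound R z lam' (fun d hd => by
        have := hsupp d (hlam' d hd)
        exact ⟨this.2.2.1, this.1, this.2.1, this.2.2.2⟩) hlamb' (F (n : ℤ)).natAbs
        (Int.natAbs_pos.2 hFn0)
    have hk : k ≤ 16 * C * g * b₀ := by
      have e0 : (F (n : ℤ)).natAbs ≤ H ^ g := by
        have : ((F (n : ℤ)).natAbs : ℤ) ≤ ((H ^ g : ℕ) : ℤ) := by
          rw [Int.natCast_natAbs]
          push_cast
          exact hFn
        exact_mod_cast this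
      have e1 : (z : ℝ) ^ k ≤ (H : ℝ) ^ g := by exact_mod_cast hk1.trans e0
      have e2 := Real.log_le_log (by positivity) e1
      rw [Real.log_pow, Real.log_pow, ← hl] at e2
      have e4 : (k : ℝ) ≤ 16 * C * g * b₀ := aux_k g k C b₀ _ l hlz0 hg0 e2 hz2'
      exact_mod_cast e4
    have e5 : (4 : ℝ) ^ k ≤ l ^ ((2 * (4 + B1) + 1) * (64 * C * g * M)) := by
      calc (4 : ℝ) ^ k ≤ 4 ^ (16 * C * g * b₀) := pow_le_pow_right₀ (by norm_num) hk
        _ = 2 ^ (32 * C * g * b₀) := by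
          rw [show (4 : ℝ) = 2 ^ 2 by norm_num, ← pow_mul]
          congr 1
          ring
        _ ≤ _ := hb11
    rw [hA1]
    exact hk2.trans e5
  refine ⟨nuM F W z R lam (Vz * G), ?_, ?_, ?_, ?_⟩
  · intro n
    unfold nuM
    split_ifs <;> positivity
  · -- the pointwise bound
    intro n hn
    have hFn0 := (hF n hn).1
    have hpos : (0 : ℝ) ≤ l ^ ((2 * (4 + B1) + 1) * (64 * C * g * M) + 2 * B1) := by positivity
    unfold nuM
    split_ifs with hr
    · have hk2 := hpt lam (fun d hd => hd) hlamb n hn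
      calc ds R lam (F (n : ℤ)) ^ 2 / (Vz * G) = ds R lam (F (n : ℤ)) ^ 2 * (1 / (Vz * G)) := by
            rw [mul_one_div]
        _ ≤ l ^ ((2 * (4 + B1) + 1) * (64 * C * g * M)) * l ^ (2 * B1) := by
            have e6 : 0 ≤ 1 / (Vz * G) := by positivity
            rw [hA1] at hk2
            gcongr
        _ = _ := by rw [← pow_add]
    · exact hpos
  · -- the lower bound
    intro n hn hsm
    have hnu : nuM F W z R lam (Vz * G) n = 1 / (Vz * G) := by
      unfold nuM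
      rw [if_pos]
      · have e1 : ds R lam (F (n : ℤ)) = 1 := by
          unfold ds
          rw [sum_eq_single 1]
          · exact hlam1
          · intro d hd hd1
            by_contra hne
            obtain ⟨p, hp, hpd⟩ := Nat.exists_prime_and_dvd hd1
            rw [mem_filter, mem_Icc] at hd
            have h6 : p ≤ R := (Nat.le_of_dvd (by omega) hpd).trans hd.1.2
            refine hsm p hp ?_ ((Int.natCast_dvd_natCast.2 hpd).trans hd.2)
            refine le_trans ?_ hRδ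
            exact_mod_cast h6
          · intro h7
            exfalso
            apply h7
            rw [mem_filter, mem_Icc]
            refine ⟨⟨le_rfl, by omega⟩, by simp⟩
        rw [e1, one_pow]
      · intro p hp
        rw [mem_PS] at hp
        apply hsm p hp.2.1
        refine le_trans ?_ hRδ
        exact_mod_cast hp.1.2.trans hzR
    rw [hnu, V_split F W R H hW1 (hWz.trans hzR) hRH, V_split F W z R hW1 hWz hzR, ← hV]
    apply aux_v Vz G cM CS _ _ hV0 hG0 hCS hPR0 hcM hGup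
    apply PR_mer hSys R H (by omega)
    apply hMer R H (by omega) hRH
    have e1 : 2 / θ * (θ * l / 2) = l := by field_simp
    calc Real.log H = 2 / θ * (θ * l / 2) := by rw [e1, hl]
      _ ≤ max 1 (2 / θ) * Real.log R := by
        gcongr
        exact le_max_right _ _
  · -- correlations
    intro m hm t hinj ht b' M₀ L hL hdom
    refine le_trans ?_ hηη
    have hmM : m ≤ M := hm.trans hMM
    have hmr : (m : ℝ) ≤ M := by exact_mod_cast hmM
    have hLe : Real.exp (l / 2) ≤ L := by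
      refine le_trans (le_of_eq ?_) hL
      rw [Real.rpow_def_of_pos hH0, ← hl]
      congr 1
      ring
    have hL0 : (0 : ℝ) < L := lt_of_lt_of_le (Real.exp_pos _) hLe
    rw [sum_nuM]
    have hCo' : Co F W N S (H ^ g) (ε₀ m) := by
      intro t ht1 ht2
      obtain ⟨Δ, a1, a2, a3, a4⟩ := hCo t ht1 ht2
      exact ⟨Δ, a1, a2, a3, a4.trans (hε₁m m hmM)⟩
    have hloc := hs₀ m S ((hs1m m hmM).trans hs1s) W N (H ^ g) hW1 hps F hSys hCo' t b' hinj ht z
    rw [← hV] at hloc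
    obtain ⟨Vu, hVu⟩ : ∃ Vu, Vu = ∏ p ∈ PS W z, (1 - (rhoT F W b' t p : ℝ) / p) := ⟨_, rfl⟩
    rw [← hVu] at hloc
    have hVu0 : 0 ≤ Vu := aux6 Vu (Vz ^ m) η hloc hη1 (by positivity)
    have hρT : ∀ t ∈ TT R lam, (rs (rt F) (Dl t) : ℝ) ≤ (2 : ℝ) ^ b := by
      intro t ht
      have e1 := rs_bound g (rt F) (fun p hp => (hSys.root p hp).1) (Dl t)
      have e2 := omega_bound (fun d hd => (hsupp' d hd).2.2) ht
      have e3 : g * (Dl t).primeFactors.card ≤ b := by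
        apply exp_small g C M b _ θ (Real.log z) l (Real.log R) hM1 hC1 hθ0 hθ1 hlz0 _ hlR2
          (by rw [← hb₀]; exact hz2')
        have e4 : (z : ℝ) ^ (Dl t).primeFactors.card ≤ (R : ℝ) ^ 2 := by exact_mod_cast e2
        have e5 := Real.log_le_log (by positivity) e4
        rw [Real.log_pow, Real.log_pow] at e5
        exact_mod_cast e5
      have e6 : rs (rt F) (Dl t) ≤ 2 ^ b := by
        refine e1.trans ?_
        rw [← pow_mul]
        exact Nat.pow_le_pow_right (by norm_num) e3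
      exact_mod_cast e6
    obtain ⟨qQ, hqQ⟩ : ∃ qQ : ℝ, qQ = (l ^ A1) ^ m * ((m : ℝ) ^ 2 *
      (Real.log ((H ^ g : ℕ) : ℝ) / Real.log z * (g * (L / z + 1)))) := ⟨_, rfl⟩
    have hq0Q : 0 ≤ qQ := by
      rw [hqQ]
      have b2 : 0 ≤ Real.log ((H ^ g : ℕ) : ℝ) := Real.log_natCast_nonneg _
      have b3 : 0 ≤ Real.log ((H ^ g : ℕ) : ℝ) / Real.log z := div_nonneg b2 hlz0.le
      positivity
    have hncop : ∑ x ∈ Fintype.piFinset (fun _ : Fin m => TT R lam),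
        (if ∀ i j, i ≠ j → Nat.Coprime (Dl (x i)) (Dl (x j)) then 0 else |cn F W z b' M₀ L t x|) ≤ qQ := by
      refine (ncop_sum m R z W b' M₀ L F t lam (fun d hd => (hsupp' d hd).2.2) (l ^ A1)
        (fun K hK i => hpt (ind lam) (fun d hd => (ind_ne lam d).1 hd) (ind_abs lam) _ (hdom K hK i))).trans ?_
      rw [hqQ]
      apply mul_le_mul_of_nonneg_left _ (by positivity)
      exact Sb_card m g W b' M₀ L z (H ^ g) N S F hSys ε₁ hCo t hinj ht hW1 hWz hz2
    have hcorr := corrQ m R z lam (by omega) hsupp' hlamb (fun d => (rs (rt F) d : ℝ)) ((2 : ℝ) ^ b)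
      (by positivity) (fun _ _ => Nat.cast_nonneg _) hρT
      (fun x => cn F W z b' M₀ L t x) (L * Vu) ((1 / 2 : ℝ) ^ b₀)
      (((2 : ℝ) ^ b) ^ m * ((2 : ℝ) ^ 2 ^ J) ^ (C * b₀)) qQ (by positivity) (by positivity) (by positivity)
      (by
        intro x hx hcop
        rw [hVu]
        subst hz
        exact cnt_cop h4 C b₀ W J m R F hSys.per t b' M₀ L lam ((2 : ℝ) ^ b)
          (fun d hd => (hsupp' d hd).2.2) (fun d hd => (hsupp d hd).2.2.1) hW1 hWz hρT
          (fun D a hD hDp => hC g m b₀ W (by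
            refine le_trans ?_ (hb1.trans hbb₀)
            gcongr) hW1 (fun p hp hpC => hWp p hp (hpC.trans (le_trans (by gcongr) (Nat.le_add_right _ _))))
            F hSys t b' J D a M₀ L hD hDp) x hx hcop)
      hncop
    rw [← qfr_eq, ← hG] at hcorr
    have hRX2 : (R : ℝ) ^ (2 * m) ≤ Real.exp (l / 16) := by
      calc (R : ℝ) ^ (2 * m) ≤ Real.exp (θ * l) ^ (2 * m) := pow_le_pow_left₀ hR0.le hRle _
        _ = Real.exp ((2 * m : ℕ) * (θ * l)) := by rw [Real.exp_nat_mul]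
        _ ≤ Real.exp (l / 16) := by
          apply Real.exp_le_exp.2
          exact aux_R θ l M C g m hmr hMr hCr1 hg0 hl0 hθ1 hθ0
    have hEe : ((2 : ℝ) ^ 2 ^ J) ^ (C * b₀) ≤ Real.exp (l / 8) := by
      rw [← hzr, pow_eq_exp z hz0]
      apply Real.exp_le_exp.2
      push_cast
      linarith
    have hlR3' : 0 ≤ Real.log R := hlR0.le
    have h2b1 : (1 : ℝ) ≤ 2 ^ b := one_le_pow₀ (by norm_num)
    exact final_real m M hmM L Vz G Vu ((2 : ℝ) ^ b * (1 + Real.log R) ^ 3) _ z ((1 / 2 : ℝ) ^ b₀)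
      ((R : ℝ) ^ (2 * m) * (((2 : ℝ) ^ b) ^ m * ((2 : ℝ) ^ 2 ^ J) ^ (C * b₀)) + qQ) 1 η
      ((2 : ℝ) ^ b * ((1 + l) ^ 3 * l ^ B1)) (l ^ (2 * B1)) hL0 hV0 hG0 hη
      hη1 hz0 (by positivity) (by positivity) (add_nonneg (by positivity) hq0Q) (by positivity) hloc
      (by rw [one_mul]; exact hcorr)
      (by
        rw [div_eq_mul_one_div, mul_assoc]
        have e3 : 0 ≤ 1 / G := by positivity
        gcongr)
      (by
        have e1 : (1 : ℝ) ≤ (1 + l) ^ 3 := one_le_pow₀ (by linarith)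
        have e2 : (1 : ℝ) ≤ l ^ B1 := one_le_pow₀ hl1
        exact one_le_mul_of_one_le_of_one_le h2b1 (one_le_mul_of_one_le_of_one_le e1 e2))
      hVGinv (one_le_pow₀ (by linarith))
      (by
        refine le_trans ?_ (hb6.trans (by linarith))
        have e1 : 1 / (z : ℝ) ≤ Real.exp (-Real.sqrt l) := by
          rw [Real.exp_neg, one_div]
          exact inv_anti₀ (Real.exp_pos _) hez.le
        gcongr)
      (hb5.trans (by linarith))
      (by
        have e0 : ((2 : ℝ) ^ b) ^ m ≤ ((2 : ℝ) ^ b) ^ M := pow_le_pow_right₀ h2b1 hmM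
        have e1 : (R : ℝ) ^ (2 * m) * (((2 : ℝ) ^ b) ^ m * ((2 : ℝ) ^ 2 ^ J) ^ (C * b₀)) / L ≤
            Real.exp (-(l / 4)) * ((2 : ℝ) ^ b) ^ M := by
          rw [div_le_iff₀ hL0]
          calc (R : ℝ) ^ (2 * m) * (((2 : ℝ) ^ b) ^ m * ((2 : ℝ) ^ 2 ^ J) ^ (C * b₀)) ≤
                Real.exp (l / 16) * (((2 : ℝ) ^ b) ^ M * Real.exp (l / 8)) := by gcongr
            _ = (Real.exp (l / 16) * Real.exp (l / 8)) * ((2 : ℝ) ^ b) ^ M := by ring
            _ = Real.exp (3 / 16 * l) * ((2 : ℝ) ^ b) ^ M := by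
                rw [← Real.exp_add]
                congr 2
                ring
            _ ≤ Real.exp (-(l / 4) + l / 2) * ((2 : ℝ) ^ b) ^ M := by
                gcongr
                linarith
            _ = Real.exp (-(l / 4)) * ((2 : ℝ) ^ b) ^ M * Real.exp (l / 2) := by
                rw [Real.exp_add]
                ring
            _ ≤ Real.exp (-(l / 4)) * ((2 : ℝ) ^ b) ^ M * L := by gcongr
        have hfirst : (R : ℝ) ^ (2 * m) * (((2 : ℝ) ^ b) ^ m * ((2 : ℝ) ^ 2 ^ J) ^ (C * b₀)) / L *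
            (l ^ (2 * B1)) ^ M ≤ η / 16 := by
          refine le_trans ?_ (hb7.trans (by linarith))
          calc (R : ℝ) ^ (2 * m) * (((2 : ℝ) ^ b) ^ m * ((2 : ℝ) ^ 2 ^ J) ^ (C * b₀)) / L *
                (l ^ (2 * B1)) ^ M ≤ Real.exp (-(l / 4)) * ((2 : ℝ) ^ b) ^ M * (l ^ (2 * B1)) ^ M := by
                gcongr
            _ = _ := by rw [mul_pow, mul_assoc]
        have hzL : (z : ℝ) ≤ L := by
          refine le_trans ?_ hLe
          rw [← Real.exp_log hz0]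
          apply Real.exp_le_exp.2
          refine hlzl.trans ?_
          have : θ * l ≤ l := hθl
          linarith
        have hsecond : qQ / L * (l ^ (2 * B1)) ^ M ≤ η / 16 := by
          have a1 : Real.log ((H ^ g : ℕ) : ℝ) / Real.log z ≤ g * l := by
            rw [div_le_iff₀ hlz0]
            push_cast
            rw [Real.log_pow, ← hl]
            have : 1 ≤ Real.log z := hsq1.trans hsz.le
            have h0 : 0 ≤ (g : ℝ) * l := by positivity
            nlinarith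
          have a2 : (L : ℝ) / z + 1 ≤ 2 * L / z := by
            have : 1 ≤ (L : ℝ) / z := by
              rw [le_div_iff₀ hz0]
              linarith
            have e : 2 * (L : ℝ) / z = L / z + L / z := by ring
            linarith
          have a3 : qQ ≤ l ^ (A1 * M) * ((M : ℝ) ^ 2 * (g * l * (g * (2 * L / z)))) := by
            rw [hqQ, ← pow_mul]
            have b1 : l ^ (A1 * m) ≤ l ^ (A1 * M) := pow_le_pow_right₀ hl1 (Nat.mul_le_mul_left _ hmM)
            have b2 : 0 ≤ Real.log ((H ^ g : ℕ) : ℝ) := Real.log_natCast_nonneg _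
            gcongr
          have a4 : qQ / L ≤ l ^ (A1 * M) * ((M : ℝ) ^ 2 * (g * l * (g * (2 / z)))) := by
            rw [div_le_iff₀ hL0]
            refine a3.trans (le_of_eq ?_)
            ring
          calc qQ / L * (l ^ (2 * B1)) ^ M ≤
              l ^ (A1 * M) * ((M : ℝ) ^ 2 * (g * l * (g * (2 / z)))) * (l ^ (2 * B1)) ^ M := by gcongr
            _ = (2 * (M : ℝ) ^ 2 * (g : ℝ) ^ 2 * (16 / η) * l ^ (A1 * M + 1 + 2 * B1 * M)) * (η / 16) / z := by
              rw [← pow_mul, pow_add, pow_add, pow_one]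
              field_simp
            _ ≤ Real.exp (Real.sqrt l) * (η / 16) / z := by
              gcongr
            _ ≤ η / 16 := by
              rw [div_le_iff₀ hz0, mul_comm]
              gcongr
        rw [one_mul, add_div, add_mul]
        linarith)

end Pool.Agent.E8helper70.AP
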