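import Pool.Agent.E8helper70.AP.Stm
import Pool.Agent.Y814.RSZ.Mj2
import Pool.Agent.Y833.RSZ.LOC

/-!
# Progressions of prime pairs: correlations of the majorant with common prime factors
-/

set_option autoImplicit false

open Finset

namespace Pool.Agent.E8helper70.AP

open Pool.Agent.Y677.RSZ (rt rhoT V)
open Pool.Agent.TH423.SH (PS)
open Pool.Agent.Y917.PSP (TT Dl wt mem_TT Dl_pos sum_pi sum_TT_le one_le_L lcm_sum_one lcm_sum_prime noncop div_bound)
open Pool.Agent.Y814.RSZ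

open Classical in
/-- the main term of the correlation -/
theorem corrQ (m R z : ℕ) (lam : ℕ → ℝ) (hz : 1 ≤ z)
    (hlam : ∀ d, lam d ≠ 0 → 1 ≤ d ∧ d ≤ R ∧ ∀ p : ℕ, p.Prime → p ∣ d → z < p) (hl1 : ∀ d, |lam d| ≤ 1)
    (ρ : ℕ → ℝ) (T : ℝ) (hT : 0 ≤ T) (hρ0 : ∀ t ∈ TT R lam, 0 ≤ ρ (Dl t))
    (hρT : ∀ t ∈ TT R lam, ρ (Dl t) ≤ T)
    (cnt : (Fin m → ℕ × ℕ) → ℝ) (Y ε E Q : ℝ) (hY : 0 ≤ Y) (hε : 0 ≤ ε) (hE : 0 ≤ E)
    (hcop : ∀ x, (∀ i, x i ∈ TT R lam) → (∀ i j, i ≠ j → Nat.Coprime (Dl (x i)) (Dl (x j))) →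
      |cnt x - Y * ∏ i, (ρ (Dl (x i)) / (Dl (x i) : ℝ))| ≤
        ε * (Y * ∏ i, (ρ (Dl (x i)) / (Dl (x i) : ℝ))) + E)
    (hncop : ∑ x ∈ Fintype.piFinset (fun _ : Fin m => TT R lam),
      (if ∀ i j, i ≠ j → Nat.Coprime (Dl (x i)) (Dl (x j)) then 0 else |cnt x|) ≤ Q) :
    |∑ x ∈ Fintype.piFinset (fun _ : Fin m => TT R lam), (∏ i, wt lam (x i)) * cnt x -
      Y * (∑ t ∈ TT R lam, wt lam t * (ρ (Dl t) / (Dl t : ℝ))) ^ m| ≤
      Y * (16 * m ^ 2 * (T * (1 + Real.log R) ^ 3) ^ m / z + ε * (T * (1 + Real.log R) ^ 3) ^ m) +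
        ((R : ℝ) ^ (2 * m) * E + Q) := by
  have e1 : (∑ t ∈ TT R lam, wt lam t * (ρ (Dl t) / (Dl t : ℝ))) ^ m =
      ∑ x ∈ Fintype.piFinset (fun _ : Fin m => TT R lam),
      (∏ i, wt lam (x i)) * ∏ i, (ρ (Dl (x i)) / (Dl (x i) : ℝ)) := by
    have h1 : ∀ x ∈ Fintype.piFinset (fun _ : Fin m => TT R lam),
        (∏ i, wt lam (x i)) * ∏ i, (ρ (Dl (x i)) / (Dl (x i) : ℝ)) =
        ∏ i, (wt lam (x i) * (ρ (Dl (x i)) / (Dl (x i) : ℝ))) := by
      intro x _
      rw [← prod_mul_distrib]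
    rw [sum_congr rfl h1, sum_pi (fun _ t => wt lam t * (ρ (Dl t) / (Dl t : ℝ))), prod_const, card_univ,
      Fintype.card_fin]
  rw [e1, mul_sum, ← sum_sub_distrib]
  refine (abs_sum_le_sum_abs _ _).trans ?_
  have hq0 : ∀ x : Fin m → ℕ × ℕ, (∀ i, x i ∈ TT R lam) → 0 ≤ ∏ i : Fin m, (ρ (Dl (x i)) / (Dl (x i) : ℝ)) :=
    fun x hx => prod_nonneg fun i _ => div_nonneg (hρ0 _ (hx i)) (Nat.cast_nonneg _)
  have h1 : ∀ x ∈ Fintype.piFinset (fun _ : Fin m => TT R lam),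
      |(∏ i, wt lam (x i)) * cnt x - Y * ((∏ i, wt lam (x i)) * ∏ i, (ρ (Dl (x i)) / (Dl (x i) : ℝ)))| ≤
      Y * (if ∀ i j, i ≠ j → Nat.Coprime (Dl (x i)) (Dl (x j)) then 0 else
        ∏ i, (ρ (Dl (x i)) / (Dl (x i) : ℝ))) +
      (ε * (Y * ∏ i, (ρ (Dl (x i)) / (Dl (x i) : ℝ))) + E) +
      (if ∀ i j, i ≠ j → Nat.Coprime (Dl (x i)) (Dl (x j)) then 0 else |cnt x|) := by
    intro x hx
    rw [Fintype.mem_piFinset] at hx
    have hp : 0 ≤ ∏ i, (ρ (Dl (x i)) / (Dl (x i) : ℝ)) := hq0 x hx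
    have hw : |∏ i, wt lam (x i)| ≤ 1 := by
      rw [abs_prod]
      apply prod_le_one
      · intro i _
        exact abs_nonneg _
      · intro i _
        unfold wt
        rw [abs_mul]
        exact mul_le_one₀ (hl1 _) (abs_nonneg _) (hl1 _)
    have e2 : (∏ i, wt lam (x i)) * cnt x -
        Y * ((∏ i, wt lam (x i)) * ∏ i, (ρ (Dl (x i)) / (Dl (x i) : ℝ))) =
        (∏ i, wt lam (x i)) * (cnt x - Y * ∏ i, (ρ (Dl (x i)) / (Dl (x i) : ℝ))) := by ring
    rw [e2, abs_mul]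
    have h3 : |∏ i, wt lam (x i)| * |cnt x - Y * ∏ i, (ρ (Dl (x i)) / (Dl (x i) : ℝ))| ≤
        |cnt x - Y * ∏ i, (ρ (Dl (x i)) / (Dl (x i) : ℝ))| := mul_le_of_le_one_left (abs_nonneg _) hw
    refine h3.trans ?_
    have h4 : 0 ≤ ε * (Y * ∏ i, (ρ (Dl (x i)) / (Dl (x i) : ℝ))) := by positivity
    by_cases hc : ∀ i j, i ≠ j → Nat.Coprime (Dl (x i)) (Dl (x j))
    · rw [if_pos hc, if_pos hc, mul_zero, zero_add, add_zero]
      exact hcop x hx hc
    · rw [if_neg hc, if_neg hc]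
      have h5 : 0 ≤ Y * ∏ i, (ρ (Dl (x i)) / (Dl (x i) : ℝ)) := by positivity
      have h6 := abs_sub (cnt x) (Y * ∏ i, (ρ (Dl (x i)) / (Dl (x i) : ℝ)))
      rw [abs_of_nonneg h5] at h6
      linarith
  refine (sum_le_sum h1).trans ?_
  rw [sum_add_distrib, sum_add_distrib, sum_add_distrib, ← mul_sum, ← mul_sum, ← mul_sum, sum_const, nsmul_eq_mul]
  have h2 := noncopT m R z lam hz hlam ρ T hT hρ0 hρT
  have hTL : (T * (1 + Real.log R) ^ 3) ^ m = T ^ m * ((1 + Real.log R) ^ 3) ^ m := mul_pow _ _ _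
  have h3 : ∑ x ∈ Fintype.piFinset (fun _ : Fin m => TT R lam), ∏ i, (ρ (Dl (x i)) / (Dl (x i) : ℝ)) ≤
      (T * (1 + Real.log R) ^ 3) ^ m := by
    rw [sum_pi (fun _ t => (ρ (Dl t) / (Dl t : ℝ))), prod_const, card_univ, Fintype.card_fin]
    apply pow_le_pow_left₀ (sum_nonneg fun t ht => div_nonneg (hρ0 _ ht) (Nat.cast_nonneg _))
    calc ∑ t ∈ TT R lam, (ρ (Dl t) / (Dl t : ℝ)) ≤ ∑ t ∈ TT R lam, T * ((1 : ℝ) / (Dl t : ℝ)) := by
          apply sum_le_sum
          intro t ht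
          rw [mul_one_div]
          exact div_le_div_of_nonneg_right (hρT _ ht) (Nat.cast_nonneg _)
      _ = T * ∑ t ∈ TT R lam, (1 : ℝ) / (Dl t : ℝ) := by rw [mul_sum]
      _ ≤ T * (1 + Real.log R) ^ 3 := by
          apply mul_le_mul_of_nonneg_left _ hT
          exact (sum_TT_le R lam (fun n : ℕ => (1 : ℝ) / (n : ℝ)) fun n => by positivity).trans (lcm_sum_one R)
  have h4 : ((Fintype.piFinset (fun _ : Fin m => TT R lam)).card : ℝ) ≤ (R : ℝ) ^ (2 * m) := by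
    rw [Fintype.card_piFinset, prod_const, card_univ, Fintype.card_fin, pow_mul]
    push_cast
    apply pow_le_pow_left₀ (Nat.cast_nonneg _)
    have h5 : (TT R lam).card ≤ R ^ 2 := by
      unfold TT
      refine (card_filter_le _ _).trans ?_
      rw [card_product, Nat.card_Icc, pow_two]
      simp
    exact_mod_cast h5
  have h5 := mul_le_mul_of_nonneg_left h2 hY
  have h6 : ε * (Y * ∑ x ∈ Fintype.piFinset (fun _ : Fin m => TT R lam),
      ∏ i, (ρ (Dl (x i)) / (Dl (x i) : ℝ))) ≤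
      ε * (Y * (T * (1 + Real.log R) ^ 3) ^ m) := by gcongr
  have h7 := mul_le_mul_of_nonneg_right h4 hE
  have h8 : T ^ m * (16 * m ^ 2 * ((1 + Real.log R) ^ 3) ^ m / z) =
      16 * m ^ 2 * (T * (1 + Real.log R) ^ 3) ^ m / z := by rw [hTL]; ring
  rw [h8] at h5
  linarith




open Classical in
/-- the indicator of the support -/
noncomputable def ind (lam : ℕ → ℝ) (d : ℕ) : ℝ := if lam d = 0 then 0 else 1

theorem ind_ne (lam : ℕ → ℝ) (d : ℕ) : ind lam d ≠ 0 ↔ lam d ≠ 0 := by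
  unfold ind
  split_ifs with h <;> simp [h]

theorem ind_abs (lam : ℕ → ℝ) (d : ℕ) : |ind lam d| ≤ 1 := by
  unfold ind
  split_ifs <;> simp

theorem TT_ind (R : ℕ) (lam : ℕ → ℝ) : TT R (ind lam) = TT R lam := by
  ext x
  rw [mem_TT, mem_TT, ind_ne, ind_ne]

theorem wt_ind {R : ℕ} {lam : ℕ → ℝ} {x : ℕ × ℕ} (hx : x ∈ TT R lam) : wt (ind lam) x = 1 := by
  have h := (mem_TT.1 hx).2
  unfold wt ind
  rw [if_neg h.1, if_neg h.2, one_mul]

open Classical in
/-- the `K` for which two of the values have a common prime factor larger than `z` -/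
noncomputable def Sb (F : ℤ → ℤ) (W z b M₀ L : ℕ) {m : ℕ} (t : Fin m → ℕ) : Finset ℕ :=
  (Ioc M₀ (M₀ + L)).filter (fun K => ∃ i j, i ≠ j ∧ ∃ p : ℕ, p.Prime ∧ z < p ∧
    (p : ℤ) ∣ F ((W * (K + t i) + b : ℕ) : ℤ) ∧ (p : ℤ) ∣ F ((W * (K + t j) + b : ℕ) : ℤ))

open Classical in
theorem ncop_sum (m R z W b M₀ L : ℕ) (F : ℤ → ℤ) (t : Fin m → ℕ) (lam : ℕ → ℝ)
    (hlam : ∀ d, lam d ≠ 0 → ∀ p : ℕ, p.Prime → p ∣ d → z < p) (P : ℝ)
    (hpt : ∀ K ∈ Ioc M₀ (M₀ + L), ∀ i, ds R (ind lam) (F ((W * (K + t i) + b : ℕ) : ℤ)) ^ 2 ≤ P) :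
    ∑ x ∈ Fintype.piFinset (fun _ : Fin m => TT R lam),
      (if ∀ i j, i ≠ j → Nat.Coprime (Dl (x i)) (Dl (x j)) then 0 else |cn F W z b M₀ L t x|) ≤
    P ^ m * ((Sb F W z b M₀ L t).card : ℝ) := by
  have h1 : ∀ x ∈ Fintype.piFinset (fun _ : Fin m => TT R lam),
      (if ∀ i j, i ≠ j → Nat.Coprime (Dl (x i)) (Dl (x j)) then 0 else |cn F W z b M₀ L t x|) ≤
      (∏ i, wt (ind lam) (x i)) * (((Sb F W z b M₀ L t).filter
        (fun K => ∀ i, (Dl (x i) : ℤ) ∣ F ((W * (K + t i) + b : ℕ) : ℤ))).card : ℝ) := by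
    intro x hx
    rw [Fintype.mem_piFinset] at hx
    have hw : ∏ i, wt (ind lam) (x i) = 1 := prod_eq_one fun i _ => wt_ind (hx i)
    rw [hw, one_mul]
    split_ifs with hc
    · exact Nat.cast_nonneg _
    · unfold cn
      rw [Nat.abs_cast, Nat.cast_le]
      apply card_le_card
      intro K hK
      rw [mem_filter, mem_filter] at hK
      obtain ⟨⟨hK1, _⟩, hK3⟩ := hK
      push Not at hc
      obtain ⟨i, j, hij, hcop⟩ := hc
      obtain ⟨p, hp, hpi, hpj⟩ := Nat.Prime.not_coprime_iff_dvd.1 hcop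
      rw [mem_filter]
      refine ⟨?_, hK3⟩
      unfold Sb
      rw [mem_filter]
      exact ⟨hK1, i, j, hij, p, hp, Dl_primes hlam (hx i) p hp hpi,
        (Int.natCast_dvd_natCast.2 hpi).trans (hK3 i), (Int.natCast_dvd_natCast.2 hpj).trans (hK3 j)⟩
  refine (sum_le_sum h1).trans ?_
  have h2 := expand R (ind lam) (fun (i : Fin m) (K : ℕ) => F ((W * (K + t i) + b : ℕ) : ℤ)) (Sb F W z b M₀ L t)
  rw [TT_ind] at h2
  refine le_trans (le_of_eq h2.symm) ?_
  have h3 : ∀ K ∈ Sb F W z b M₀ L t, ∏ i, ds R (ind lam) (F ((W * (K + t i) + b : ℕ) : ℤ)) ^ 2 ≤ P ^ m := by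
    intro K hK
    unfold Sb at hK
    rw [mem_filter] at hK
    calc ∏ i, ds R (ind lam) (F ((W * (K + t i) + b : ℕ) : ℤ)) ^ 2 ≤ ∏ _i : Fin m, P :=
          prod_le_prod (fun i _ => sq_nonneg _) (fun i _ => hpt K hK.1 i)
      _ = P ^ m := by rw [prod_const, card_univ, Fintype.card_fin]
  refine (sum_le_sum h3).trans ?_
  rw [sum_const, nsmul_eq_mul, mul_comm]

/-- the number of `K` in an interval and a residue class -/
theorem cnt_class (M₀ L p r : ℕ) (hp : 0 < p) :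
    (((Ioc M₀ (M₀ + L)).filter (fun K => K ≡ r [MOD p])).card : ℝ) ≤ L / p + 1 := by
  have h := Nat.Ioc_filter_modEq_card M₀ (M₀ + L) hp r
  have hp0 : (0 : ℚ) < p := by exact_mod_cast hp
  have h1 : ((((Ioc M₀ (M₀ + L)).filter (fun K => K ≡ r [MOD p])).card : ℤ) : ℚ) ≤ (L : ℚ) / p + 1 := by
    rw [h]
    push_cast
    apply max_le
    · have e1 : ((⌊(((M₀ + L : ℕ) : ℚ) - r) / p⌋ : ℤ) : ℚ) ≤ (((M₀ + L : ℕ) : ℚ) - r) / p := Int.floor_le _
      have e2 : ((M₀ : ℚ) - r) / p < (⌊((M₀ : ℚ) - r) / p⌋ : ℤ) + 1 := Int.lt_floor_add_one _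
      have e3 : (((M₀ + L : ℕ) : ℚ) - r) / p = ((M₀ : ℚ) - r) / p + L / p := by
        push_cast
        ring
      push_cast at e1 e3
      linarith
    · positivity
  have h2 : ((((Ioc M₀ (M₀ + L)).filter (fun K => K ≡ r [MOD p])).card : ℚ) : ℝ) ≤ (((L : ℚ) / p + 1 : ℚ) : ℝ) := by
    exact_mod_cast h1
  push_cast at h2
  exact h2

open Classical in
/-- the number of the `K` for which `p` divides the value -/
theorem cnt_root (g W b M₀ L t p : ℕ) (F : ℤ → ℤ) (hF : Sy g F) (hp : p.Prime) (hW : ¬ p ∣ W) :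
    (((Ioc M₀ (M₀ + L)).filter (fun K => (p : ℤ) ∣ F ((W * (K + t) + b : ℕ) : ℤ))).card : ℝ) ≤
      g * (L / p + 1) := by
  have hp0 : (0 : ℝ) < p := by exact_mod_cast hp.pos
  have hc := Pool.Agent.Y833.RSZ.card_shift hp (hF.per p hp) W b t hW
  have hmod : ∀ K : ℕ, ((p : ℤ) ∣ F ((W * (K + t) + b : ℕ) : ℤ) ↔ (p : ℤ) ∣ F ((W * (K % p + t) + b : ℕ) : ℤ)) := by
    intro K
    apply per_dvd (hF.per p hp)
    have h2 : W * (K + t) + b = W * (K % p + t) + b + p * (W * (K / p)) := by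
      have := Nat.div_add_mod K p
      calc W * (K + t) + b = W * (p * (K / p) + K % p + t) + b := by rw [this]
        _ = _ := by ring
    have e : ((W * (K + t) + b : ℕ) : ℤ) - ((W * (K % p + t) + b : ℕ) : ℤ) = p * ((W * (K / p) : ℕ) : ℤ) := by
      rw [h2]
      push_cast
      ring
    rw [e]
    exact dvd_mul_right _ _
  set T := (range p).filter (fun r : ℕ => (p : ℤ) ∣ F ((W * (r + t) + b : ℕ) : ℤ)) with hT
  have hTc : (T.card : ℝ) ≤ g := by
    have h1 : T.card = rt F p := by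
      rw [← hc, hT]
    rw [h1]
    exact_mod_cast (hF.root p hp).1
  rw [card_eq_sum_card_fiberwise (f := fun K => K % p) (t := T)]
  · push_cast
    calc ∑ r ∈ T, ((((Ioc M₀ (M₀ + L)).filter (fun K => (p : ℤ) ∣ F ((W * (K + t) + b : ℕ) : ℤ))).filter
          (fun K => K % p = r)).card : ℝ) ≤ ∑ _r ∈ T, ((L : ℝ) / p + 1) := by
          apply sum_le_sum
          intro r hr
          refine le_trans ?_ (cnt_class M₀ L p r hp.pos)
          rw [Nat.cast_le]
          apply card_le_card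
          intro K hK
          rw [mem_filter, mem_filter] at hK
          rw [mem_filter]
          refine ⟨hK.1.1, ?_⟩
          rw [hT, mem_filter, mem_range] at hr
          unfold Nat.ModEq
          rw [hK.2, Nat.mod_eq_of_lt hr.1]
      _ = T.card * ((L : ℝ) / p + 1) := by rw [sum_const, nsmul_eq_mul]
      _ ≤ g * ((L : ℝ) / p + 1) := by gcongr
  · intro K hK
    rw [mem_coe, mem_filter] at hK
    rw [mem_coe, hT, mem_filter, mem_range]
    exact ⟨Nat.mod_lt _ hp.pos, (hmod K).1 hK.2⟩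

/-- the number of large prime factors -/
theorem big_primes (n D z : ℕ) (hn : 1 ≤ n) (hD : n ≤ D) (hz : 2 ≤ z) :
    ((n.primeFactors.filter (fun p => z < p)).card : ℝ) ≤ Real.log D / Real.log z := by
  have hz0 : (0 : ℝ) < z := by
    have : 0 < z := by omega
    exact_mod_cast this
  have hlz : 0 < Real.log z := Real.log_pos (by exact_mod_cast (by omega : 1 < z))
  rw [le_div_iff₀ hlz, ← Real.log_pow]
  apply Real.log_le_log (by positivity)
  have h : z ^ (n.primeFactors.filter (fun p => z < p)).card ≤ n := by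
    calc z ^ (n.primeFactors.filter (fun p => z < p)).card = ∏ p ∈ n.primeFactors.filter (fun p => z < p), z := by
          rw [prod_const]
      _ ≤ ∏ p ∈ n.primeFactors.filter (fun p => z < p), p :=
          prod_le_prod' fun p hp => (mem_filter.1 hp).2.le
      _ ≤ n := by
        apply Nat.le_of_dvd (by omega)
        exact (prod_dvd_prod_of_subset _ n.primeFactors (fun p => p) (filter_subset _ _)).trans
          (Nat.prod_primeFactors_dvd n)
  exact_mod_cast h.trans hD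

theorem Sb_card (m g W b M₀ L z D N S : ℕ) (F : ℤ → ℤ) (hF : Sy g F) (ε : ℝ) (hCo : Co F W N S D ε)
    (t : Fin m → ℕ) (hinj : Function.Injective t) (ht : ∀ i, 1 ≤ t i ∧ t i ≤ N) (hW1 : 1 ≤ W) (hWz : W ≤ z)
    (hz2 : 2 ≤ z) :
    ((Sb F W z b M₀ L t).card : ℝ) ≤ (m : ℝ) ^ 2 * (Real.log D / Real.log z * (g * (L / z + 1))) := by
  classical
  have hz0 : (0 : ℝ) < z := by
    have : 0 < z := by omega
    exact_mod_cast this
  have hCo' := hCo
  unfold Co at hCo'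
  choose! Δ hΔ using hCo'
  set hh : Fin m × Fin m → ℕ := fun q => ((t q.1 : ℤ) - (t q.2 : ℤ)).natAbs with hhh
  have hhpos : ∀ q ∈ (univ : Finset (Fin m)).offDiag, 1 ≤ hh q ∧ hh q ≤ N := by
    intro q hq
    rw [mem_offDiag] at hq
    constructor
    · rw [Nat.one_le_iff_ne_zero]
      intro h
      apply hq.2.2
      apply hinj
      simp only [hhh] at h
      omega
    · have := ht q.1
      have := ht q.2
      simp only [hhh]
      omega
  have hsub : Sb F W z b M₀ L t ⊆ (univ : Finset (Fin m)).offDiag.biUnion (fun q =>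
      ((Δ (hh q)).primeFactors.filter (fun p => z < p)).biUnion (fun p =>
        (Ioc M₀ (M₀ + L)).filter (fun K => (p : ℤ) ∣ F ((W * (K + t q.1) + b : ℕ) : ℤ)))) := by
    intro K hK
    unfold Sb at hK
    rw [mem_filter] at hK
    obtain ⟨hK1, i, j, hij, p, hp, hzp, h1, h2⟩ := hK
    have hq : (i, j) ∈ (univ : Finset (Fin m)).offDiag := by
      rw [mem_offDiag]; exact ⟨mem_univ _, mem_univ _, hij⟩
    obtain ⟨q1, q2⟩ := hhpos (i, j) hq
    obtain ⟨h0, _, h3, _⟩ := hΔ (hh (i, j)) q1 q2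
    have hd : p ∣ Δ (hh (i, j)) := by
      rcases le_total (t i) (t j) with hle | hle
      · apply h3 p hp _ h1
        have e : ((W * (K + t i) + b : ℕ) : ℤ) + ((W * hh (i, j) : ℕ) : ℤ) =
            ((W * (K + t j) + b : ℕ) : ℤ) := by
          simp only [hhh]
          have e1 : ((((t i : ℤ) - (t j : ℤ)).natAbs : ℕ) : ℤ) = (t j : ℤ) - t i := by omega
          push_cast [e1]
          ring
        rw [e]
        exact h2
      · apply h3 p hp _ h2
        have e : ((W * (K + t j) + b : ℕ) : ℤ) + ((W * hh (i, j) : ℕ) : ℤ) =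
            ((W * (K + t i) + b : ℕ) : ℤ) := by
          simp only [hhh]
          have e1 : ((((t i : ℤ) - (t j : ℤ)).natAbs : ℕ) : ℤ) = (t i : ℤ) - t j := by omega
          push_cast [e1]
          ring
        rw [e]
        exact h1
    rw [mem_biUnion]
    refine ⟨(i, j), hq, ?_⟩
    rw [mem_biUnion]
    refine ⟨p, ?_, ?_⟩
    · rw [mem_filter, Nat.mem_primeFactors]
      exact ⟨⟨hp, hd, by omega⟩, hzp⟩
    · rw [mem_filter]
      exact ⟨hK1, h1⟩
  have hc1 : ((Sb F W z b M₀ L t).card : ℝ) ≤ ∑ q ∈ (univ : Finset (Fin m)).offDiag,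
      ∑ p ∈ (Δ (hh q)).primeFactors.filter (fun p => z < p),
        (((Ioc M₀ (M₀ + L)).filter (fun K => (p : ℤ) ∣ F ((W * (K + t q.1) + b : ℕ) : ℤ))).card : ℝ) := by
    have h1 := (card_le_card hsub).trans card_biUnion_le
    have h2 : ((Sb F W z b M₀ L t).card : ℝ) ≤ ∑ q ∈ (univ : Finset (Fin m)).offDiag,
      (((((Δ (hh q)).primeFactors.filter (fun p => z < p)).biUnion (fun p =>
        (Ioc M₀ (M₀ + L)).filter (fun K => (p : ℤ) ∣ F ((W * (K + t q.1) + b : ℕ) : ℤ)))).card : ℕ) : ℝ) := by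
      exact_mod_cast h1
    refine h2.trans (sum_le_sum fun q _ => ?_)
    exact_mod_cast card_biUnion_le
  refine hc1.trans ?_
  have h2 : ∀ q ∈ (univ : Finset (Fin m)).offDiag,
      ∑ p ∈ (Δ (hh q)).primeFactors.filter (fun p => z < p),
        (((Ioc M₀ (M₀ + L)).filter (fun K => (p : ℤ) ∣ F ((W * (K + t q.1) + b : ℕ) : ℤ))).card : ℝ) ≤
      Real.log D / Real.log z * (g * (L / z + 1)) := by
    intro q hq
    obtain ⟨q1, q2⟩ := hhpos q hq
    obtain ⟨h0, h0', _⟩ := hΔ (hh q) q1 q2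
    have h3 : ∀ p ∈ (Δ (hh q)).primeFactors.filter (fun p => z < p),
        (((Ioc M₀ (M₀ + L)).filter (fun K => (p : ℤ) ∣ F ((W * (K + t q.1) + b : ℕ) : ℤ))).card : ℝ) ≤
        g * (L / z + 1) := by
      intro p hp
      rw [mem_filter, Nat.mem_primeFactors] at hp
      have hpz : (z : ℝ) ≤ p := by exact_mod_cast hp.2.le
      refine (cnt_root g W b M₀ L (t q.1) p F hF hp.1.1 ?_).trans ?_
      · intro h
        have := Nat.le_of_dvd (by omega) h
        omega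
      · gcongr
    refine (sum_le_sum h3).trans ?_
    rw [sum_const, nsmul_eq_mul]
    exact mul_le_mul_of_nonneg_right (big_primes _ D z h0 h0' hz2) (by positivity)
  refine (sum_le_sum h2).trans ?_
  rw [sum_const, nsmul_eq_mul]
  apply mul_le_mul_of_nonneg_right
  · rw [offDiag_card]
    simp only [card_univ, Fintype.card_fin]
    have : m * m - m ≤ m ^ 2 := by
      rw [sq]; omega
    exact_mod_cast this
  · have h4 : 0 ≤ Real.log D := Real.log_natCast_nonneg D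
    have h5 : 0 ≤ Real.log z := Real.log_natCast_nonneg z
    positivity

end Pool.Agent.E8helper70.AP
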