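import Pool.Agent.Y677.RSZ.Stm

/-!
# Progressions of prime pairs: the sieve theorem with few collisions, statements

The structure `Sys` of the project RSZ asks that `F n`, `F (n + h)` have few common prime factors for all `h`. Here
this is replaced by a condition for the shifts `W t`, `t ≤ N`, only.
-/

set_option autoImplicit false

open Finset

namespace Pool.Agent.E8helper70.AP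

open Pool.Agent.Y677.RSZ (rt rhoT V)
open Pool.Agent.TH423.SH (PS)

/-- systems without condition on the collisions -/
structure Sy (g : ℕ) (F : ℤ → ℤ) : Prop where
  per : ∀ p : ℕ, p.Prime → ∀ n : ℤ, (p : ℤ) ∣ F (n + p) - F n
  root : ∀ p : ℕ, p.Prime → rt F p ≤ g ∧ rt F p < p

/-- few collisions for the shifts `W t`, `t ≤ N` -/
def Co (F : ℤ → ℤ) (W N S D : ℕ) (ε : ℝ) : Prop := ∀ t : ℕ, 1 ≤ t → t ≤ N → ∃ Δ : ℕ, 1 ≤ Δ ∧ Δ ≤ D ∧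
  (∀ p : ℕ, p.Prime → ∀ n : ℤ, (p : ℤ) ∣ F n → (p : ℤ) ∣ F (n + ((W * t : ℕ) : ℤ)) → p ∣ Δ) ∧
  ∑ p ∈ Δ.primeFactors.filter (fun p => S < p), (1 : ℝ) / p ≤ ε

open Classical in
/-- (C1) the fundamental lemma -/
def T_C1 : Prop := ∃ C : ℕ, 1 ≤ C ∧ ∀ g m b₀ W : ℕ, C * (g * m + 1) ≤ b₀ → 1 ≤ W →
  (∀ p : ℕ, p.Prime → p ≤ C * (g * m + 1) → p ∣ W) → ∀ F : ℤ → ℤ, Sy g F →
  ∀ (t : Fin m → ℕ) (b J D a M L : ℕ), 1 ≤ D → (∀ p ∈ PS W (2 ^ 2 ^ J), ¬ p ∣ D) →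
  |(((Ioc M (M + L)).filter (fun K => K % D = a % D ∧
      ∀ p ∈ PS W (2 ^ 2 ^ J), ∀ i, ¬ (p : ℤ) ∣ F ((W * (K + t i) + b : ℕ) : ℤ))).card : ℝ) -
    (L : ℝ) / D * ∏ p ∈ PS W (2 ^ 2 ^ J), (1 - (rhoT F W b t p : ℝ) / p)| ≤
    (1 / 2 : ℝ) ^ b₀ * ((L : ℝ) / D * ∏ p ∈ PS W (2 ^ 2 ^ J), (1 - (rhoT F W b t p : ℝ) / p)) +
      ((2 : ℝ) ^ 2 ^ J) ^ (C * b₀)

/-- (LOC) the local factors -/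
def T_LOC : Prop := ∀ (g m : ℕ) (η : ℝ), 0 < η → ∃ (s₀ : ℕ) (ε₀ : ℝ), 0 < ε₀ ∧ ∀ S : ℕ, s₀ ≤ S → ∀ W N D : ℕ,
  1 ≤ W → (∀ p : ℕ, p.Prime → p ≤ S → p ∣ W) → ∀ F : ℤ → ℤ, Sy g F → Co F W N S D ε₀ →
  ∀ (t : Fin m → ℕ) (b : ℕ), Function.Injective t → (∀ i, 1 ≤ t i ∧ t i ≤ N) → ∀ R : ℕ,
    |∏ p ∈ PS W R, (1 - (rhoT F W b t p : ℝ) / p) - V F W R ^ m| ≤ η * V F W R ^ m

/-- (MAJ) the majorant of the `n` with `F n` free of small primes -/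
def T_MAJ : Prop := ∀ (g M : ℕ) (δ : ℝ), 0 < δ → ∃ c : ℝ, 0 < c ∧ ∀ η : ℝ, 0 < η →
  ∃ (B s₀ : ℕ) (ε₀ : ℝ), 0 < ε₀ ∧ ∀ B' : ℕ, ∃ H₀ : ℕ, ∀ (F : ℤ → ℤ) (Y H W N S : ℕ), Sy g F → H₀ ≤ H →
  (∀ n ∈ Ioc Y (Y + H), F (n : ℤ) ≠ 0 ∧ |F (n : ℤ)| ≤ (H : ℤ) ^ g) →
  1 ≤ W → 1 ≤ N → (W : ℝ) ≤ Real.log H ^ B' → (N : ℝ) ≤ Real.log H ^ B' → s₀ ≤ S →
  (∀ p : ℕ, p.Prime → p ≤ S → p ∣ W) → Co F W N S (H ^ g) ε₀ →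
  ∃ ν : ℕ → ℝ, (∀ n, 0 ≤ ν n) ∧ (∀ n ∈ Ioc Y (Y + H), ν n ≤ Real.log H ^ B) ∧
    (∀ n ∈ Ioc Y (Y + H), (∀ p : ℕ, p.Prime → (p : ℝ) ≤ (H : ℝ) ^ δ → ¬ (p : ℤ) ∣ F (n : ℤ)) →
      c ≤ ν n * V F W H) ∧
    ∀ m ≤ M, ∀ t : Fin m → ℕ, Function.Injective t → (∀ i, 1 ≤ t i ∧ t i ≤ N) →
      ∀ b M₀ L : ℕ, (H : ℝ) ^ (1 / 2 : ℝ) ≤ L →
        (∀ K ∈ Ioc M₀ (M₀ + L), ∀ i, W * (K + t i) + b ∈ Ioc Y (Y + H)) →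
        |(∑ K ∈ Ioc M₀ (M₀ + L), ∏ i, ν (W * (K + t i) + b)) / L - 1| ≤ η

/-- (ENG) Szemerédi's theorem relative to sifted sets, with few collisions: for every `U` the modulus `W` and the
length `N` of the windows can be chosen such that all the shifts `v` but few are admitted (see `Typ`). -/
def T_ENG : Prop := ∀ (k g : ℕ) (δ κ : ℝ), 2 ≤ k → 0 < δ → 0 < κ → ∃ (ε₀ : ℝ), 0 < ε₀ ∧ ∀ T : ℕ, ∃ B H₀ : ℕ,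
  ∀ H : ℕ, H₀ ≤ H → ∃ W N S : ℕ, 1 ≤ W ∧ Real.log H ≤ N ∧ 1 ≤ N ∧ (W : ℝ) * N ≤ Real.log H ^ B ∧ T * Real.log N ≤ S ∧
  (∀ p : ℕ, p.Prime → (p ∣ W ↔ p ≤ S)) ∧
  ∀ (F : ℤ → ℤ) (Y : ℕ) (A : Finset ℕ), Sy g F → Co F W N S (H ^ g) ε₀ →
  (∀ n ∈ Ioc Y (Y + H), F (n : ℤ) ≠ 0 ∧ |F (n : ℤ)| ≤ (H : ℤ) ^ g) → A ⊆ Ioc Y (Y + H) →
  (∀ n ∈ A, ∀ p : ℕ, p.Prime → (p : ℝ) ≤ (H : ℝ) ^ δ → ¬ (p : ℤ) ∣ F (n : ℤ)) →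
  κ * (H * V F 1 H) ≤ A.card →
  ∃ a d : ℕ, 1 ≤ d ∧ (d : ℝ) ≤ Real.log H ^ B ∧ ∀ i < k, a + i * d ∈ A

end Pool.Agent.E8helper70.AP
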